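import Mathlib

set_option autoImplicit false

/-! # Elimination along a chain of (2,2)-relations -/

open Polynomial

namespace Pool.Agent.L7h85.Rig

/-- Parameters of the linkage: distance of the hubs, hub distances, squared edge lengths. -/
structure Par (S : Type*) where
  ρ : S
  r : ℕ → S
  l : ℕ → S

/-- Change of rings. -/
def Par.map {S T : Type*} [Semiring S] [Semiring T] (P : Par S) (φ : S →+* T) : Par T :=
  ⟨φ P.ρ, fun k => φ (P.r k), fun k => φ (P.l k)⟩

section ring
variable {S T : Type*} [CommRing S] [CommRing T] (P : Par S)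

/-- Leading coefficient of the relation. -/
def cA (k : ℕ) (z : S) : S := P.r k * (P.r (k + 1) - P.ρ * z)
/-- Middle coefficient of the relation. -/
def cB (k : ℕ) (z : S) : S :=
  P.r k ^ 2 * z + (P.r (k + 1) * z - P.ρ) * (P.r (k + 1) - P.ρ * z) - P.l k * z
/-- Constant coefficient of the relation. -/
def cC (k : ℕ) (z : S) : S := P.r k * z * (P.r (k + 1) * z - P.ρ)

/-- The relation. -/
def E (k : ℕ) (y z : S) : S :=
  (P.r k * y + P.r (k + 1) * z - P.ρ) * (P.r k * z + P.r (k + 1) * y - P.ρ * y * z) -
    P.l k * y * z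

lemma E_eq (k : ℕ) (y z : S) : E P k y z = cA P k z * y ^ 2 + cB P k z * y + cC P k z := by
  unfold E cA cB cC; ring

/-- The relation as quadratic polynomial. -/
noncomputable def q (k : ℕ) (z : S) : S[X] :=
  C (cA P k z) * X ^ 2 + C (cB P k z) * X + C (cC P k z)

lemma q_eval (k : ℕ) (y z : S) : (q P k z).eval y = E P k y z := by
  rw [E_eq]; simp [q]

lemma E_map (φ : S →+* T) (k : ℕ) (y z : S) : φ (E P k y z) = E (P.map φ) k (φ y) (φ z) := by
  simp [E, Par.map]

lemma q_map (φ : S →+* T) (k : ℕ) (z : S) : (q P k z).map φ = q (P.map φ) k (φ z) := by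
  simp [q, Par.map, cA, cB, cC]

lemma Par.map_map {U : Type*} [CommRing U] (φ : S →+* T) (ψ : T →+* U) :
    (P.map φ).map ψ = P.map (ψ.comp φ) := rfl

/-- Iterated elimination. -/
noncomputable def F : ℕ → S → S[X]
  | 0, a => E (P.map (C : S →+* S[X])) 0 (C a) X
  | k + 1, a => resultant (q (P.map (C : S →+* S[X])) (k + 1) X) ((F k a).map (C : S →+* S[X])) 2
      (2 ^ (k + 1))

lemma F_map (φ : S →+* T) (k : ℕ) (a : S) : (F P k a).map φ = F (P.map φ) k (φ a) := by
  induction k with
  | zero =>
    have := E_map (P.map (C : S →+* S[X])) (mapRingHom φ) 0 (C a) X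
    simp only [F]
    rw [← coe_mapRingHom, this]
    simp [Par.map_map]
    congr 1
    simp [Par.map]
  | succ k ih =>
    have e1 : (q (P.map (C : S →+* S[X])) (k + 1) X).map (mapRingHom φ) =
        q ((P.map φ).map (C : T →+* T[X])) (k + 1) X := by
      rw [q_map]
      have h1 : (P.map (C : S →+* S[X])).map (mapRingHom φ) = (P.map φ).map (C : T →+* T[X]) := by
        simp [Par.map]
      have h2 : (mapRingHom φ) (X : S[X]) = X := by simp
      rw [h1, h2]
    have e2 : ((F P k a).map (C : S →+* S[X])).map (mapRingHom φ) =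
        (F (P.map φ) k (φ a)).map (C : T →+* T[X]) := by
      rw [← ih, Polynomial.map_map, Polynomial.map_map]
      have h1 : (mapRingHom φ).comp (C : S →+* S[X]) = (C : T →+* T[X]).comp φ := by
        ext x
        simp
      rw [h1]
    have e3 := resultant_map_map (q (P.map (C : S →+* S[X])) (k + 1) X)
      ((F P k a).map (C : S →+* S[X])) 2 (2 ^ (k + 1)) (mapRingHom φ)
    rw [e1, e2] at e3
    simp only [F]
    rw [e3, coe_mapRingHom]

lemma F_zero_eval (a z : S) : (F P 0 a).eval z = E P 0 a z := by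
  have := E_map (P.map (C : S →+* S[X])) (evalRingHom z) 0 (C a) X
  simp only [F]
  rw [← coe_evalRingHom, this]
  simp [Par.map]

lemma F_succ_eval (k : ℕ) (a z : S) : (F P (k + 1) a).eval z =
    resultant (q P (k + 1) z) (F P k a) 2 (2 ^ (k + 1)) := by
  have e1 : (q (P.map (C : S →+* S[X])) (k + 1) X).map (evalRingHom z) = q P (k + 1) z := by
    rw [q_map]
    have h1 : (P.map (C : S →+* S[X])).map (evalRingHom z) = P := by
      simp [Par.map]
    have h2 : (evalRingHom z) (X : S[X]) = z := by simp
    rw [h1, h2]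
  have e2 : ((F P k a).map (C : S →+* S[X])).map (evalRingHom z) = F P k a := by
    rw [Polynomial.map_map]
    have h1 : (evalRingHom z).comp C = RingHom.id S := by ext; simp
    rw [h1, Polynomial.map_id]
  have e3 := resultant_map_map (q (P.map (C : S →+* S[X])) (k + 1) X)
      ((F P k a).map (C : S →+* S[X])) 2 (2 ^ (k + 1)) (evalRingHom z)
  rw [e1, e2] at e3
  rw [e3]
  simp only [F, coe_evalRingHom]

lemma natDegree_det_le {n : Type*} [Fintype n] [DecidableEq n] (M : Matrix n n S[X]) (d : n → ℕ)
    (h : ∀ i j, (M i j).natDegree ≤ d j) : M.det.natDegree ≤ ∑ j, d j := by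
  rw [Matrix.det_apply]
  apply natDegree_sum_le_of_forall_le
  intro σ _
  refine (natDegree_smul_le _ _).trans ?_
  refine (natDegree_prod_le _ _).trans ?_
  exact Finset.sum_le_sum fun i _ => h _ _

lemma natDegree_resultant_le (f g : S[X][X]) (m n : ℕ) (d : ℕ) (hf : ∀ i, (f.coeff i).natDegree ≤ d)
    (hg : ∀ i, (g.coeff i).natDegree ≤ 0) : (resultant f g m n).natDegree ≤ n * d := by
  have := natDegree_det_le (sylvester f g m n) (fun j => j.addCases (fun _ => 0) (fun _ => d)) ?_
  · refine this.trans ?_
    rw [Fin.sum_univ_add]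
    simp
  · intro i j
    induction j using Fin.addCases with
    | left j =>
      simp only [sylvester, Matrix.of_apply, Fin.addCases_left]
      split_ifs
      · exact hg _
      · simp
    | right j =>
      simp only [sylvester, Matrix.of_apply, Fin.addCases_right]
      split_ifs
      · exact hf _
      · simp

lemma natDegree_q_le (k : ℕ) (z : S) : (q P k z).natDegree ≤ 2 := by
  unfold q; compute_degree

lemma natDegree_F_le (k : ℕ) (a : S) : (F P k a).natDegree ≤ 2 ^ (k + 1) := by
  cases k with
  | zero =>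
    simp only [F, E, Par.map]
    norm_num
    compute_degree
  | succ k =>
    simp only [F]
    refine (natDegree_resultant_le _ _ _ _ 2 ?_ ?_).trans ?_
    · intro i
      simp only [q, coeff_add, coeff_C_mul, coeff_X_pow, coeff_X, coeff_C]
      have hA : (cA (P.map (C : S →+* S[X])) (k + 1) X).natDegree ≤ 2 := by
        simp only [cA, Par.map]; compute_degree; norm_num
      have hB : (cB (P.map (C : S →+* S[X])) (k + 1) X).natDegree ≤ 2 := by
        simp only [cB, Par.map]; compute_degree
      have hC : (cC (P.map (C : S →+* S[X])) (k + 1) X).natDegree ≤ 2 := by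
        simp only [cC, Par.map]; compute_degree
      refine natDegree_add_le_of_degree_le (natDegree_add_le_of_degree_le ?_ ?_) ?_
      · split_ifs <;> simp [hA]
      · split_ifs <;> simp [hB]
      · split_ifs <;> simp [hC]
    · intro i
      simp
    · rw [pow_succ 2 (k + 1)]

end ring

section field
variable {K : Type*} [Field K] (P : Par K)

/-- Product formula. -/
lemma F_succ_prod (k : ℕ) (a z y₁ y₂ : K) (hA : cA P (k + 1) z ≠ 0)
    (hs : cA P (k + 1) z * (y₁ + y₂) = - cB P (k + 1) z)
    (hp : cA P (k + 1) z * (y₁ * y₂) = cC P (k + 1) z) :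
    (F P (k + 1) a).eval z =
      cA P (k + 1) z ^ (2 ^ (k + 1)) * ((F P k a).eval y₁ * (F P k a).eval y₂) := by
  rw [F_succ_eval]
  have hq : q P (k + 1) z = C (cA P (k + 1) z) * ((X - C y₁) * (X - C y₂)) := by
    have hB : cB P (k + 1) z = - (cA P (k + 1) z * (y₁ + y₂)) := by rw [hs]; ring
    rw [q, ← hp, hB]
    simp only [C_neg, C_mul, C_add]
    ring
  have hne : (X - C y₁) * (X - C y₂) ≠ 0 := mul_ne_zero (X_sub_C_ne_zero _) (X_sub_C_ne_zero _)
  have hdeg : (q P (k + 1) z).natDegree = 2 := by
    rw [hq, natDegree_C_mul hA, natDegree_mul (X_sub_C_ne_zero _) (X_sub_C_ne_zero _)]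
    simp
  have hsp : (q P (k + 1) z).Splits := by
    rw [hq]
    exact (Splits.C _).mul ((Splits.X_sub_C _).mul (Splits.X_sub_C _))
  have hlc : (q P (k + 1) z).leadingCoeff = cA P (k + 1) z := by
    rw [hq, leadingCoeff_mul, leadingCoeff_C, leadingCoeff_mul]
    simp
  have := resultant_eq_prod_eval (q P (k + 1) z) (F P k a) (2 ^ (k + 1)) (natDegree_F_le P k a) hsp
  rw [hdeg] at this
  rw [this, hlc, hq, roots_C_mul _ hA, roots_mul hne]
  simp

/-- A common root makes the next polynomial vanish. -/
lemma F_succ_zero (k : ℕ) (a y z : K) (h1 : (F P k a).eval y = 0) (h2 : E P (k + 1) y z = 0) :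
    (F P (k + 1) a).eval z = 0 := by
  rw [F_succ_eval]
  obtain ⟨u, v, -, -, h⟩ := exists_mul_add_mul_eq_C_resultant (m := 2) (n := 2 ^ (k + 1))
    (q P (k + 1) z) (F P k a) (natDegree_q_le P _ _) (natDegree_F_le P k a)
    (Or.inl two_ne_zero)
  have := congrArg (eval y) h
  rw [eval_add, eval_mul, eval_mul, h1, q_eval, h2, eval_C] at this
  simpa using this.symm

end field

end Pool.Agent.L7h85.Rig
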