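import Pool.Agent.L7h85.Rig.Elim

set_option autoImplicit false

/-! # Symmetry, reality and continuity of the eliminants -/

open Polynomial Topology Filter

namespace Pool.Agent.L7h85.Rig

/-- Ordered roots of a complex quadratic equation. -/
lemma exists_roots (A B C : ℂ) (hA : A ≠ 0) :
    ∃ y₁ y₂ : ℂ, A * (y₁ + y₂) = -B ∧ A * (y₁ * y₂) = C ∧ ‖y₁‖ ≤ ‖y₂‖ := by
  obtain ⟨s, hs⟩ := IsAlgClosed.exists_pow_nat_eq (B ^ 2 - 4 * A * C) (n := 2) two_pos
  have h1 : A * ((-B + s) / (2 * A) + (-B - s) / (2 * A)) = -B := by field_simp; ring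
  have h2 : A * ((-B + s) / (2 * A) * ((-B - s) / (2 * A))) = C := by
    field_simp
    linear_combination -hs
  rcases le_total ‖(-B + s) / (2 * A)‖ ‖(-B - s) / (2 * A)‖ with h | h
  · exact ⟨_, _, h1, h2, h⟩
  · exact ⟨_, _, by rw [add_comm]; exact h1, by rw [mul_comm ((-B - s) / (2 * A))]; exact h2, h⟩

section sym
variable (P : Par ℂ)

lemma cA_inv (k : ℕ) {z : ℂ} (hz : z ≠ 0) : cA P k z⁻¹ * z ^ 2 = cC P k z := by
  unfold cA cC; field_simp

lemma cB_inv (k : ℕ) {z : ℂ} (hz : z ≠ 0) : cB P k z⁻¹ * z ^ 2 = cB P k z := by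
  unfold cB; field_simp

lemma cC_inv (k : ℕ) {z : ℂ} (hz : z ≠ 0) : cC P k z⁻¹ * z ^ 2 = cA P k z := by
  unfold cA cC; field_simp

lemma E_inv (k : ℕ) {y z : ℂ} (hy : y ≠ 0) (hz : z ≠ 0) :
    E P k y z = (y * z) ^ 2 * E P k y⁻¹ z⁻¹ := by
  unfold E; field_simp

/-- The set of exceptional values. -/
lemma exc_finite (k : ℕ) (hr : P.r k ≠ 0) (hr' : P.r (k + 1) ≠ 0) (hρ : P.ρ ≠ 0) :
    {z : ℂ | cA P k z = 0 ∨ cC P k z = 0}.Finite := by
  apply Set.Finite.subset (s := {P.r (k + 1) / P.ρ, 0, P.ρ / P.r (k + 1)}) (by simp)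
  rintro z (h | h)
  · left
    have h1 := (mul_eq_zero.1 h).resolve_left hr
    field_simp
    linear_combination -h1
  · rcases mul_eq_zero.1 h with h | h
    · right; left; exact (mul_eq_zero.1 h).resolve_left hr
    · right; right
      simp only [Set.mem_singleton_iff]
      field_simp
      linear_combination h

lemma F_inv (hρ : P.ρ ≠ 0) (k : ℕ) (hr : ∀ j ≤ k + 1, P.r j ≠ 0) {a : ℂ} (ha : a ≠ 0) {z : ℂ}
    (hz : z ≠ 0) :
    (F P k a).eval z = (a * z) ^ (2 ^ (k + 1)) * (F P k a⁻¹).eval z⁻¹ := by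
  induction k generalizing z with
  | zero =>
    rw [F_zero_eval, F_zero_eval, E_inv P 0 ha hz]
    norm_num
  | succ k ih =>
    have ih := @ih (fun j hj => hr j (by omega))
    -- the generic case
    have key : ∀ z : ℂ, z ≠ 0 → cA P (k + 1) z ≠ 0 → cC P (k + 1) z ≠ 0 →
        (F P (k + 1) a).eval z = (a * z) ^ (2 ^ (k + 1 + 1)) * (F P (k + 1) a⁻¹).eval z⁻¹ := by
      intro z hz hA hC
      obtain ⟨y₁, y₂, hs, hp, -⟩ := exists_roots (cA P (k + 1) z) (cB P (k + 1) z) (cC P (k + 1) z) hA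
      have hy : y₁ * y₂ ≠ 0 := fun h => hC (by rw [← hp, h, mul_zero])
      have hy₁ := left_ne_zero_of_mul hy
      have hy₂ := right_ne_zero_of_mul hy
      have hA' : cA P (k + 1) z⁻¹ ≠ 0 := fun h => hC (by rw [← cA_inv P (k + 1) hz, h, zero_mul])
      have e1 := cA_inv P (k + 1) hz
      have e2 := cB_inv P (k + 1) hz
      have e3 := cC_inv P (k + 1) hz
      have hs' : cA P (k + 1) z⁻¹ * (y₁⁻¹ + y₂⁻¹) = - cB P (k + 1) z⁻¹ := by
        have : cA P (k + 1) z⁻¹ * (y₁⁻¹ + y₂⁻¹) * (z ^ 2) = - cB P (k + 1) z⁻¹ * (z ^ 2) := by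
          rw [neg_mul, e2, ← hs, mul_right_comm, e1, ← hp]
          field_simp
          ring
        exact mul_right_cancel₀ (pow_ne_zero 2 hz) this
      have hp' : cA P (k + 1) z⁻¹ * (y₁⁻¹ * y₂⁻¹) = cC P (k + 1) z⁻¹ := by
        have : cA P (k + 1) z⁻¹ * (y₁⁻¹ * y₂⁻¹) * (z ^ 2) = cC P (k + 1) z⁻¹ * (z ^ 2) := by
          rw [e3, mul_right_comm, e1, ← hp]
          field_simp
        exact mul_right_cancel₀ (pow_ne_zero 2 hz) this
      rw [F_succ_prod P k a z y₁ y₂ hA hs hp, F_succ_prod P k a⁻¹ z⁻¹ y₁⁻¹ y₂⁻¹ hA' hs' hp',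
        ih hy₁, ih hy₂]
      have e4 : cA P (k + 1) z ^ 2 ^ (k + 1) * (y₁ ^ 2 ^ (k + 1) * y₂ ^ 2 ^ (k + 1)) =
          (z ^ 2) ^ 2 ^ (k + 1) * cA P (k + 1) z⁻¹ ^ 2 ^ (k + 1) := by
        rw [← mul_pow, ← mul_pow, ← mul_pow, hp, ← e1, mul_comm]
      have e5 : (a * z) ^ 2 ^ (k + 1 + 1) = (a ^ 2 ^ (k + 1)) * (a ^ 2 ^ (k + 1)) * (z ^ 2) ^ 2 ^ (k + 1) := by
        rw [pow_succ 2 (k + 1), mul_comm (2 ^ (k + 1)) 2, mul_pow, pow_mul a, pow_mul z,
          ← mul_pow a a, ← sq a]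
      rw [e5, mul_pow, mul_pow]
      linear_combination (a ^ 2 ^ (k + 1) * a ^ 2 ^ (k + 1) * eval y₁⁻¹ (F P k a⁻¹) *
        eval y₂⁻¹ (F P k a⁻¹)) * e4
    -- by continuity
    have hfin := exc_finite P (k + 1) (hr _ (by omega)) (hr _ (by omega)) hρ
    have hev : ∀ᶠ w in 𝓝[≠] z, (F P (k + 1) a).eval w =
        (a * w) ^ (2 ^ (k + 1 + 1)) * (F P (k + 1) a⁻¹).eval w⁻¹ := by
      have h1 : ∀ᶠ w in 𝓝[≠] z, w ≠ 0 :=
        eventually_nhdsWithin_of_eventually_nhds (isOpen_ne.mem_nhds hz)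
      have h2 : ∀ᶠ w in 𝓝[≠] z, w ∉ {z : ℂ | cA P (k + 1) z = 0 ∨ cC P (k + 1) z = 0} := by
        have h3 : ({z : ℂ | cA P (k + 1) z = 0 ∨ cC P (k + 1) z = 0} \ {z})ᶜ ∈ 𝓝 z :=
          (hfin.subset Set.sdiff_subset).isClosed.isOpen_compl.mem_nhds (by simp)
        have h4 := mem_nhdsWithin_of_mem_nhds (t := {z}ᶜ) h3
        filter_upwards [h4, self_mem_nhdsWithin] with w hw hw' hw''
        exact hw ⟨hw'', hw'⟩
      filter_upwards [h1, h2] with w hw hw'
      simp only [not_or] at hw'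
      exact key w hw hw'.1 hw'.2
    have c1 : Tendsto (fun w => (F P (k + 1) a).eval w) (𝓝[≠] z) (𝓝 ((F P (k + 1) a).eval z)) :=
      ((F P (k + 1) a).continuous.tendsto z).mono_left nhdsWithin_le_nhds
    have c2 : Tendsto (fun w => (a * w) ^ (2 ^ (k + 1 + 1)) * (F P (k + 1) a⁻¹).eval w⁻¹) (𝓝[≠] z)
        (𝓝 ((a * z) ^ (2 ^ (k + 1 + 1)) * (F P (k + 1) a⁻¹).eval z⁻¹)) := by
      refine Tendsto.mono_left ?_ nhdsWithin_le_nhds
      refine Tendsto.mul ?_ ?_
      · exact (((continuous_const.mul continuous_id).pow _).tendsto z)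
      · exact ((F P (k + 1) a⁻¹).continuous.tendsto z⁻¹).comp (tendsto_inv₀ hz)
    exact tendsto_nhds_unique_of_eventuallyEq c1 c2 hev

end sym

section cont
variable {S : Type*} [CommRing S] [TopologicalSpace S] [IsTopologicalRing S]

lemma continuous_two (p : S[X][X]) :
    Continuous fun w : S × S => (p.map (evalRingHom w.1)).eval w.2 := by
  induction p using Polynomial.induction_on' with
  | add p q hp hq =>
    simp only [Polynomial.map_add, eval_add]
    exact hp.add hq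
  | monomial n c =>
    simp only [map_monomial, eval_monomial, coe_evalRingHom]
    exact (c.continuous.comp continuous_fst).mul (continuous_snd.pow n)

lemma F_eq_map {S : Type*} [CommRing S] (P : Par S) (k : ℕ) (a : S) :
    F P k a = (F (P.map (C : S →+* S[X])) k X).map (evalRingHom a) := by
  rw [F_map]
  have h1 : (P.map (C : S →+* S[X])).map (evalRingHom a) = P := by simp [Par.map]
  rw [h1]
  simp

lemma continuous_F (P : Par S) (k : ℕ) : Continuous fun w : S × S => (F P k w.1).eval w.2 := by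
  have := continuous_two (F (P.map (C : S →+* S[X])) k X)
  refine this.congr fun w => ?_
  rw [← F_eq_map]

/-- The last eliminant as a polynomial. -/
noncomputable def Rp {S : Type*} [CommRing S] (P : Par S) (k : ℕ) : S[X] :=
  (F (P.map (C : S →+* S[X])) k X).eval X

lemma Rp_eval {S : Type*} [CommRing S] (P : Par S) (k : ℕ) (a : S) :
    (Rp P k).eval a = (F P k a).eval a := by
  rw [F_eq_map P k a, Rp, ← coe_evalRingHom, ← eval₂_at_apply]
  simp [eval_map]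

end cont

/-- Complexification of the parameters. -/
noncomputable def Par.cx (P : Par ℝ) : Par ℂ := P.map Complex.ofRealHom

lemma F_cx (P : Par ℝ) (k : ℕ) (a z : ℝ) :
    (F P.cx k (a : ℂ)).eval (z : ℂ) = (((F P k a).eval z : ℝ) : ℂ) := by
  have := F_map P Complex.ofRealHom k a
  have h2 : F P.cx k (a : ℂ) = (F P k a).map Complex.ofRealHom := this.symm
  rw [h2, eval_map]
  exact (eval₂_at_apply Complex.ofRealHom z)

lemma F_conj (P : Par ℝ) (k : ℕ) (a : ℝ) (z : ℂ) :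
    (starRingEnd ℂ) ((F P.cx k (a : ℂ)).eval z) = (F P.cx k (a : ℂ)).eval ((starRingEnd ℂ) z) := by
  have := F_map P Complex.ofRealHom k a
  have h2 : F P.cx k (a : ℂ) = (F P k a).map Complex.ofRealHom := this.symm
  rw [h2, eval_map, eval_map, hom_eval₂]
  congr 1
  ext x
  simp

/-- At a fixed point of the symmetry the eliminant is a square. -/
lemma F_nonneg (P : Par ℝ) (hρ : P.ρ ≠ 0) (k : ℕ) (hr : ∀ j ≤ k + 2, P.r j ≠ 0)
    (hne : P.r (k + 2) ^ 2 ≠ P.ρ ^ 2) {e : ℝ} (he : e ^ 2 = 1) : 0 ≤ (F P (k + 1) e).eval e := by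
  have he0 : e ≠ 0 := fun h => by rw [h] at he; norm_num at he
  have hei : e⁻¹ = e := by field_simp; rw [he]
  have hA : cA P (k + 1) e ≠ 0 := by
    intro h
    have h1 : P.r (k + 2) - P.ρ * e = 0 := (mul_eq_zero.1 h).resolve_left (hr _ (by omega))
    apply hne
    linear_combination (P.r (k + 2) + P.ρ * e) * h1 + P.ρ ^ 2 * he
  have hAc : cA P.cx (k + 1) (e : ℂ) ≠ 0 := by
    have : cA P.cx (k + 1) (e : ℂ) = ((cA P (k + 1) e : ℝ) : ℂ) := by
      simp [cA, Par.cx, Par.map]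
    rw [this]
    exact_mod_cast hA
  have hρc : P.cx.ρ ≠ 0 := by simpa [Par.cx, Par.map] using hρ
  have hrc : ∀ j ≤ k + 2, P.cx.r j ≠ 0 := fun j hj => by
    simpa [Par.cx, Par.map] using hr j hj
  have hec : (e : ℂ) ≠ 0 := by exact_mod_cast he0
  have heic : (e : ℂ)⁻¹ = e := by exact_mod_cast hei
  obtain ⟨y₁, y₂, hs, hp, -⟩ := exists_roots (cA P.cx (k + 1) e) (cB P.cx (k + 1) e)
    (cC P.cx (k + 1) e) hAc
  have h12 : y₁ * y₂ = 1 := by
    have h1 := cA_inv P.cx (k + 1) hec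
    rw [heic] at h1
    have h2 : (e : ℂ) ^ 2 = 1 := by exact_mod_cast he
    rw [h2, mul_one] at h1
    rw [← h1] at hp
    exact mul_left_cancel₀ hAc (by rw [hp, mul_one])
  have hy₁ : y₁ ≠ 0 := left_ne_zero_of_mul (by rw [h12]; exact one_ne_zero)
  have hy₂ : y₂ = y₁⁻¹ := by field_simp; rw [mul_comm]; exact h12
  set W : ℂ := (F P.cx k e).eval y₁ / y₁ ^ (2 ^ k) with hW
  -- the inverse root
  have hinv : (F P.cx k e).eval y₁ = y₁ ^ (2 ^ (k + 1)) * (F P.cx k e).eval y₁⁻¹ := by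
    have := F_inv P.cx hρc k (fun j hj => hrc j (by omega)) hec hy₁
    rw [heic, mul_pow] at this
    have h2 : (e : ℂ) ^ 2 ^ (k + 1) = 1 := by
      rw [pow_succ 2 k, mul_comm, pow_mul]
      have h2 : (e : ℂ) ^ 2 = 1 := by exact_mod_cast he
      rw [h2, one_pow]
    rw [h2, one_mul] at this
    exact this
  have hprod : (F P.cx k e).eval y₁ * (F P.cx k e).eval y₂ = W ^ 2 := by
    rw [hy₂, hW, div_pow, ← pow_mul, ← pow_succ]
    rw [eq_div_iff (pow_ne_zero _ hy₁)]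
    linear_combination (- (F P.cx k e).eval y₁) * hinv
  have hWr : (starRingEnd ℂ) W = W := by
    have hroot : E P.cx (k + 1) ((starRingEnd ℂ) y₁) e = 0 := by
      have h1 : E P.cx (k + 1) y₁ e = 0 := by
        rw [E_eq]
        have hB : cB P.cx (k + 1) e = - (cA P.cx (k + 1) e * (y₁ + y₂)) := by rw [hs]; ring
        rw [hB, ← hp]; ring
      have h2 := congrArg (starRingEnd ℂ) h1
      rw [E_map] at h2
      simpa [Par.cx, Par.map, E] using h2
    have hcases : (starRingEnd ℂ) y₁ = y₁ ∨ (starRingEnd ℂ) y₁ = y₁⁻¹ := by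
      rw [E_eq] at hroot
      have hB : cB P.cx (k + 1) e = - (cA P.cx (k + 1) e * (y₁ + y₂)) := by rw [hs]; ring
      rw [hB, ← hp, hy₂] at hroot
      have h3 : cA P.cx (k + 1) e * (((starRingEnd ℂ) y₁ - y₁) * ((starRingEnd ℂ) y₁ - y₁⁻¹)) = 0 := by
        rw [← hroot]; ring
      rcases mul_eq_zero.1 ((mul_eq_zero.1 h3).resolve_left hAc) with h | h
      · left; exact sub_eq_zero.1 h
      · right; exact sub_eq_zero.1 h
    rw [hW, map_div₀, F_conj, map_pow]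
    rcases hcases with h | h
    · rw [h]
    · rw [h, hinv, inv_pow, div_eq_div_iff (inv_ne_zero (pow_ne_zero _ hy₁)) (pow_ne_zero _ hy₁),
        pow_succ 2 k, pow_mul, sq]
      field_simp
  have hfin : (((F P (k + 1) e).eval e : ℝ) : ℂ) =
      ((cA P (k + 1) e ^ (2 ^ (k + 1)) * W.re ^ 2 : ℝ) : ℂ) := by
    rw [← F_cx, F_succ_prod P.cx k e e y₁ y₂ hAc hs hp, hprod]
    have h1 : ((W.re : ℝ) : ℂ) = W := Complex.conj_eq_iff_re.1 hWr
    push_cast
    rw [h1]
    simp [cA, Par.cx, Par.map]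
  have hfin' : (F P (k + 1) e).eval e = cA P (k + 1) e ^ (2 ^ (k + 1)) * W.re ^ 2 := by
    exact_mod_cast hfin
  rw [hfin']
  have : Even (2 ^ (k + 1)) := by rw [pow_succ]; exact even_two.mul_left _
  exact mul_nonneg (this.pow_nonneg _) (sq_nonneg _)

end Pool.Agent.L7h85.Rig
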