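import Pool.Agent.L7h85.Rig.Geo2

set_option autoImplicit false

/-! # Realisations and chains -/

open Polynomial Topology Filter

namespace Pool.Agent.L7h85.Rig

/-- First isotropic coordinates of the realisation of a chain. -/
def Wt (P : Par ℂ) (t : ℕ → ℂ) : Fin 8 → ℂ :=
  ![0, P.ρ, P.r 0 * t 0, P.ρ - P.r 1 * t 1, P.r 2 * t 2, P.ρ - P.r 3 * t 3, P.r 4 * t 4,
    P.ρ - P.r 5 * t 5]

/-- Squared distances of the realisation of a chain. -/
noncomputable def Dt (P : Par ℂ) (t : ℕ → ℂ) (i j : Fin 8) : ℂ :=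
  (Wt P t i - Wt P t j) * (Wt P (fun k => (t k)⁻¹) i - Wt P (fun k => (t k)⁻¹) j)

/-- The edge conditions. -/
def EL (P : Par ℂ) (d : Fin 8 → Fin 8 → ℂ) : Prop :=
  d 0 1 = P.ρ ^ 2 ∧ d 0 2 = P.r 0 ^ 2 ∧ d 1 3 = P.r 1 ^ 2 ∧ d 0 4 = P.r 2 ^ 2 ∧
  d 1 5 = P.r 3 ^ 2 ∧ d 0 6 = P.r 4 ^ 2 ∧ d 1 7 = P.r 5 ^ 2 ∧
  d 2 3 = P.l 0 ∧ d 3 4 = P.l 1 ∧ d 4 5 = P.l 2 ∧ d 5 6 = P.l 3 ∧ d 6 7 = P.l 4 ∧ d 7 2 = P.l 5

lemma E_len {P : Par ℂ} {k : ℕ} {y z : ℂ} (hy : y ≠ 0) (hz : z ≠ 0) :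
    E P k y z = 0 ↔ (P.r k * y + P.r (k + 1) * z - P.ρ) *
      (P.r k * y⁻¹ + P.r (k + 1) * z⁻¹ - P.ρ) = P.l k := by
  unfold E
  constructor
  · intro h
    field_simp
    linear_combination h
  · intro h
    rw [← h]
    field_simp
    ring

/-- Chains give realisations. -/
lemma Dt_EL {P : Par ℂ} (hP : P.ND) {t : ℕ → ℂ} (ht : ∀ j ≤ 6, t j ≠ 0) (h6 : t 6 = t 0)
    (hE : ∀ j ≤ 5, E P j (t j) (t (j + 1)) = 0) : EL P (Dt P t) := by
  have h0 := (E_len (ht 0 (by omega)) (ht 1 (by omega))).1 (hE 0 (by omega))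
  have h1 := (E_len (ht 1 (by omega)) (ht 2 (by omega))).1 (hE 1 (by omega))
  have h2 := (E_len (ht 2 (by omega)) (ht 3 (by omega))).1 (hE 2 (by omega))
  have h3 := (E_len (ht 3 (by omega)) (ht 4 (by omega))).1 (hE 3 (by omega))
  have h4 := (E_len (ht 4 (by omega)) (ht 5 (by omega))).1 (hE 4 (by omega))
  have h5 := (E_len (ht 5 (by omega)) (ht 6 (by omega))).1 (hE 5 (by omega))
  rw [show 5 + 1 = 6 from rfl, hP.r6, h6] at h5
  simp only [zero_add, show 1 + 1 = 2 from rfl, show 2 + 1 = 3 from rfl, show 3 + 1 = 4 from rfl,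
    show 4 + 1 = 5 from rfl] at h0 h1 h2 h3 h4
  have t0 := ht 0 (by omega)
  have t1 := ht 1 (by omega)
  have t2 := ht 2 (by omega)
  have t3 := ht 3 (by omega)
  have t4 := ht 4 (by omega)
  have t5 := ht 5 (by omega)
  refine ⟨?_, ?_, ?_, ?_, ?_, ?_, ?_, ?_, ?_, ?_, ?_, ?_, ?_⟩
  · simp [Dt, Wt]; ring
  · simp [Dt, Wt]; field_simp
  · simp [Dt, Wt]; field_simp
  · simp [Dt, Wt]; field_simp
  · simp [Dt, Wt]; field_simp
  · simp [Dt, Wt]; field_simp
  · simp [Dt, Wt]; field_simp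
  · simp only [Dt, Wt]; simp; linear_combination h0
  · simp only [Dt, Wt]; simp; linear_combination h1
  · simp only [Dt, Wt]; simp; linear_combination h2
  · simp only [Dt, Wt]; simp; linear_combination h3
  · simp only [Dt, Wt]; simp; linear_combination h4
  · simp only [Dt, Wt]; simp; linear_combination h5

/-- Squared distances of a complex configuration. -/
def sdc (q : Fin 8 → Fin 2 → ℂ) (i j : Fin 8) : ℂ := ∑ k, (q i k - q j k) ^ 2

/-- Realisations come from chains. -/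
lemma exists_t {P : Par ℂ} (hP : P.ND) {q : Fin 8 → Fin 2 → ℂ} (h : EL P (sdc q)) :
    ∃ t : ℕ → ℂ, (∀ j ≤ 6, t j ≠ 0) ∧ t 6 = t 0 ∧ (∀ j ≤ 5, E P j (t j) (t (j + 1)) = 0) ∧
      sdc q = Dt P t := by
  have hρ := hP.ρ0
  set W : Fin 8 → ℂ := fun i => q i 0 + Complex.I * q i 1 with hW
  set Z : Fin 8 → ℂ := fun i => q i 0 - Complex.I * q i 1 with hZ
  have key : ∀ i j, sdc q i j = (W i - W j) * (Z i - Z j) := by
    intro i j
    simp only [sdc, Fin.sum_univ_two, hW, hZ]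
    linear_combination ((q i 1 - q j 1) ^ 2) * Complex.I_sq
  obtain ⟨e0, f0, f1, f2, f3, f4, f5, c0, c1, c2, c3, c4, c5⟩ := h
  have e0' := e0
  rw [key] at e0'
  have hw : W 1 - W 0 ≠ 0 := by
    intro h0
    apply pow_ne_zero 2 hρ
    rw [← e0']
    linear_combination -(Z 0 - Z 1) * h0
  set s : ℂ := P.ρ / (W 1 - W 0) with hs
  have hs0 : s ≠ 0 := div_ne_zero hρ hw
  set w : Fin 8 → ℂ := fun i => s * (W i - W 0) with hw'
  set z : Fin 8 → ℂ := fun i => (Z i - Z 0) / s with hz'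
  have key2 : ∀ i j, sdc q i j = (w i - w j) * (z i - z j) := by
    intro i j
    rw [key]
    simp only [hw', hz']
    field_simp
    ring
  have w0 : w 0 = 0 := by simp [hw']
  have z0 : z 0 = 0 := by simp [hz']
  have w1 : w 1 = P.ρ := by simp only [hw', hs]; field_simp
  have z1 : z 1 = P.ρ := by
    have : (Z 1 - Z 0) * (W 1 - W 0) = P.ρ ^ 2 := by rw [← e0']; ring
    simp only [hz', hs]
    field_simp
    linear_combination this
  have r0 := hP.r0 0 (by omega)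
  have r1 := hP.r0 1 (by omega)
  have r2 := hP.r0 2 (by omega)
  have r3 := hP.r0 3 (by omega)
  have r4 := hP.r0 4 (by omega)
  have r5 := hP.r0 5 (by omega)
  simp only [key2] at f0 f1 f2 f3 f4 f5 c0 c1 c2 c3 c4 c5
  rw [w0, z0] at f0 f2 f4
  rw [w1, z1] at f1 f3 f5
  -- a general fact
  have gen : ∀ r a b : ℂ, r ≠ 0 → a * b = r ^ 2 → a / r ≠ 0 ∧ b = r * (a / r)⁻¹ := by
    intro r a b hr hab
    have ha : a ≠ 0 := by
      rintro rfl
      rw [zero_mul] at hab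
      exact pow_ne_zero 2 hr hab.symm
    refine ⟨div_ne_zero ha hr, ?_⟩
    field_simp
    linear_combination hab
  obtain ⟨g0, b0⟩ := gen (P.r 0) (w 2) (z 2) r0 (by linear_combination f0)
  obtain ⟨g1, b1⟩ := gen (P.r 1) (P.ρ - w 3) (P.ρ - z 3) r1 (by linear_combination f1)
  obtain ⟨g2, b2⟩ := gen (P.r 2) (w 4) (z 4) r2 (by linear_combination f2)
  obtain ⟨g3, b3⟩ := gen (P.r 3) (P.ρ - w 5) (P.ρ - z 5) r3 (by linear_combination f3)
  obtain ⟨g4, b4⟩ := gen (P.r 4) (w 6) (z 6) r4 (by linear_combination f4)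
  obtain ⟨g5, b5⟩ := gen (P.r 5) (P.ρ - w 7) (P.ρ - z 7) r5 (by linear_combination f5)
  set τ0 : ℂ := w 2 / P.r 0 with hτ0
  set τ1 : ℂ := (P.ρ - w 3) / P.r 1 with hτ1
  set τ2 : ℂ := w 4 / P.r 2 with hτ2
  set τ3 : ℂ := (P.ρ - w 5) / P.r 3 with hτ3
  set τ4 : ℂ := w 6 / P.r 4 with hτ4
  set τ5 : ℂ := (P.ρ - w 7) / P.r 5 with hτ5
  have a0 : w 2 = P.r 0 * τ0 := by rw [hτ0]; field_simp
  have a1 : w 3 = P.ρ - P.r 1 * τ1 := by rw [hτ1]; field_simp; ring
  have a2 : w 4 = P.r 2 * τ2 := by rw [hτ2]; field_simp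
  have a3 : w 5 = P.ρ - P.r 3 * τ3 := by rw [hτ3]; field_simp; ring
  have a4 : w 6 = P.r 4 * τ4 := by rw [hτ4]; field_simp
  have a5 : w 7 = P.ρ - P.r 5 * τ5 := by rw [hτ5]; field_simp; ring
  have b1' : z 3 = P.ρ - P.r 1 * τ1⁻¹ := by linear_combination -b1
  have b3' : z 5 = P.ρ - P.r 3 * τ3⁻¹ := by linear_combination -b3
  have b5' : z 7 = P.ρ - P.r 5 * τ5⁻¹ := by linear_combination -b5
  set t : ℕ → ℂ := fun k => match k with
    | 0 => τ0 | 1 => τ1 | 2 => τ2 | 3 => τ3 | 4 => τ4 | 5 => τ5 | _ => τ0 with ht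
  refine ⟨t, ?_, rfl, ?_, ?_⟩
  · intro j hj
    interval_cases j
    · exact g0
    · exact g1
    · exact g2
    · exact g3
    · exact g4
    · exact g5
    · exact g0
  · intro j hj
    interval_cases j
    · refine (E_len g0 g1).2 ?_
      rw [← c0, a0, a1, b0, b1']
      simp only [zero_add]
      ring
    · refine (E_len g1 g2).2 ?_
      rw [← c1, a1, a2, b1', b2]
      ring
    · refine (E_len g2 g3).2 ?_
      rw [← c2, a2, a3, b2, b3']
      ring
    · refine (E_len g3 g4).2 ?_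
      rw [← c3, a3, a4, b3', b4]
      ring
    · refine (E_len g4 g5).2 ?_
      rw [← c4, a4, a5, b4, b5']
      ring
    · refine (E_len g5 g0).2 ?_
      rw [← c5, a5, a0, b5', b0, show 5 + 1 = 6 from rfl, hP.r6]
      ring
  · have hWt : ∀ i, w i = Wt P t i := by
      intro i
      fin_cases i
      · exact w0
      · exact w1
      · exact a0
      · exact a1
      · exact a2
      · exact a3
      · exact a4
      · exact a5
    have hZt : ∀ i, z i = Wt P (fun k => (t k)⁻¹) i := by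
      intro i
      fin_cases i
      · exact z0
      · exact z1
      · exact b0
      · exact b1'
      · exact b2
      · exact b3'
      · exact b4
      · exact b5'
    ext i j
    rw [key2, Dt, hWt, hWt, hZt, hZt]

/-- A chain is realised by a configuration. -/
lemma exists_q (P : Par ℂ) (t : ℕ → ℂ) : ∃ q : Fin 8 → Fin 2 → ℂ, sdc q = Dt P t := by
  refine ⟨fun i k => if k = 0 then (Wt P t i + Wt P (fun k => (t k)⁻¹) i) / 2 else
    (Wt P t i - Wt P (fun k => (t k)⁻¹) i) / (2 * Complex.I), ?_⟩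
  ext i j
  simp only [sdc, Fin.sum_univ_two, Dt, if_true, Fin.isValue, one_ne_zero, if_false]
  have hI := Complex.I_ne_zero
  field_simp
  rw [Complex.I_sq]
  ring

/-- Possible values of the coordinates of chains. -/
def Sv (P : Par ℂ) : ℕ → Set ℂ
  | 0 => {a | (Rp P 5).eval a = 0}
  | k + 1 => ⋃ y ∈ Sv P k, {z | E P k y z = 0}

lemma Sv_finite {P : Par ℂ} (hP : P.ND) (hR : Rp P 5 ≠ 0) (k : ℕ) (hk : k ≤ 6) :
    (Sv P k).Finite := by
  induction k with
  | zero =>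
    refine ((Rp P 5).roots.toFinset.finite_toSet).subset ?_
    intro a ha
    simp only [Finset.mem_coe, Multiset.mem_toFinset, mem_roots hR, IsRoot.def]
    exact ha
  | succ k ih =>
    exact (ih (by omega)).biUnion fun y _ => E_finite hP k (by omega) y

/-- There are finitely many realisations. -/
lemma finite_real {P : Par ℂ} (hP : P.ND) (hR : Rp P 5 ≠ 0) :
    {d : Fin 8 → Fin 8 → ℂ | ∃ q, EL P (sdc q) ∧ d = sdc q}.Finite := by
  set f : (Fin 6 → ℂ) → (Fin 8 → Fin 8 → ℂ) := fun τ => Dt P (fun n => if h : n < 6 then τ ⟨n, h⟩ else 0) with hf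
  have hfin : (Set.pi Set.univ (fun i : Fin 6 => Sv P i)).Finite :=
    Set.Finite.pi fun i => Sv_finite hP hR i (by omega)
  refine (hfin.image f).subset ?_
  rintro d ⟨q, hq, rfl⟩
  obtain ⟨t, t1, t2, t3, t4⟩ := exists_t hP hq
  refine ⟨fun i => t i, ?_, ?_⟩
  · have hmem : ∀ k ≤ 6, t k ∈ Sv P k := by
      intro k hk
      induction k with
      | zero =>
        change (Rp P 5).eval (t 0) = 0
        rw [Rp_eval]
        have := eval_of_chain P t 5 t3
        rw [show 5 + 1 = 6 from rfl, t2] at this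
        exact this
      | succ k ih =>
        exact Set.mem_biUnion (ih (by omega)) (t3 k (by omega))
    intro i _
    exact hmem i (by omega)
  · rw [t4]
    ext i j
    simp [hf, Dt, Wt]

end Pool.Agent.L7h85.Rig
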