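import Pool.Agent.L7h85.Rig.Elim2

set_option autoImplicit false

/-! # Genericity -/

open Polynomial Topology Filter

namespace Pool.Agent.L7h85.Rig

/-- The constants of a derivation. -/
def kerD (D : Derivation ℚ ℂ ℂ) : Subfield ℂ where
  carrier := {x | D x = 0}
  mul_mem' := by
    intro a b ha hb
    simp only [Set.mem_ofPred_eq] at *
    simp [D.leibniz, ha, hb]
  one_mem' := by simp
  add_mem' := by
    intro a b ha hb
    simp only [Set.mem_ofPred_eq] at *
    simp [ha, hb]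
  zero_mem' := by simp
  neg_mem' := by
    intro a ha
    simp only [Set.mem_ofPred_eq] at *
    simp [ha]
  inv_mem' := by
    intro a ha
    simp only [Set.mem_ofPred_eq] at *
    rw [D.leibniz_inv, ha, smul_zero]

lemma mem_kerD {D : Derivation ℚ ℂ ℂ} {x : ℂ} : x ∈ kerD D ↔ D x = 0 := Iff.rfl

lemma kerD_sq {D : Derivation ℚ ℂ ℂ} {x : ℂ} (h : x ^ 2 ∈ kerD D) : x ∈ kerD D := by
  rw [mem_kerD] at *
  rw [sq, D.leibniz] at h
  by_cases hx : x = 0
  · rw [hx]; simp
  · simp only [smul_eq_mul] at h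
    have : (2 * x) * D x = 0 := by rw [← h]; ring
    exact (mul_eq_zero.1 this).resolve_left (by simp [hx])

variable {K : Subfield ℂ} (hK : ∀ x : ℂ, x ^ 2 ∈ K → x ∈ K)

include hK in
lemma mem_of_quad {α β γ y : ℂ} (hα : α ∈ K) (hβ : β ∈ K) (hγ : γ ∈ K) (h0 : α ≠ 0 ∨ γ ≠ 0)
    (h : α * y ^ 2 + β * y + γ = 0) : y ∈ K := by
  by_cases hα0 : α = 0
  · subst hα0
    have hγ0 : γ ≠ 0 := by simpa using h0
    have hβ0 : β ≠ 0 := by
      rintro rfl
      apply hγ0
      simpa using h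
    have : y = - γ / β := by
      field_simp
      linear_combination h
    rw [this]
    exact K.div_mem (K.neg_mem hγ) hβ
  · have h2 : (2 * α * y + β) ^ 2 = β ^ 2 - 4 * α * γ := by
      linear_combination 4 * α * h
    have h4 : (4 : ℂ) ∈ K := by exact_mod_cast natCast_mem K 4
    have h2' : (2 : ℂ) ∈ K := by exact_mod_cast natCast_mem K 2
    have h3 : 2 * α * y + β ∈ K := by
      apply hK
      rw [h2]
      exact K.sub_mem (K.pow_mem hβ 2) (K.mul_mem (K.mul_mem h4 hα) hγ)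
    have h5 : y = (2 * α * y + β - β) / (2 * α) := by
      field_simp
      ring
    rw [h5]
    exact K.div_mem (K.sub_mem h3 hβ) (K.mul_mem h2' hα)

/-- Nondegeneracy. -/
structure Par.ND (P : Par ℂ) : Prop where
  ρ0 : P.ρ ≠ 0
  r0 : ∀ j ≤ 6, P.r j ≠ 0
  rρ : ∀ j ≤ 6, P.r j ^ 2 ≠ P.ρ ^ 2
  r6 : P.r 6 = P.r 0

variable {P : Par ℂ} (hP : P.ND)

lemma E_symm_quad (k : ℕ) (y z : ℂ) : E P k y z =
    (P.r (k + 1) * (P.r k - P.ρ * y)) * z ^ 2 +
    (P.r (k + 1) ^ 2 * y + (P.r k * y - P.ρ) * (P.r k - P.ρ * y) - P.l k * y) * z +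
    (P.r (k + 1) * y * (P.r k * y - P.ρ)) := by
  unfold E; ring

lemma nd_aux {ρ r r' z : ℂ} (hr : r ≠ 0) (hr' : r' ≠ 0) (h : r' ^ 2 ≠ ρ ^ 2) :
    r * (r' - ρ * z) ≠ 0 ∨ r * z * (r' * z - ρ) ≠ 0 := by
  by_contra hcon
  push Not at hcon
  obtain ⟨h1, h2⟩ := hcon
  have h3 : r' - ρ * z = 0 := (mul_eq_zero.1 h1).resolve_left hr
  rcases mul_eq_zero.1 h2 with h4 | h4
  · have h5 : z = 0 := (mul_eq_zero.1 h4).resolve_left hr
    rw [h5] at h3
    apply hr'
    simpa using h3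
  · apply h
    linear_combination r' * h3 + ρ * h4

include hK hP in
lemma mem_right {k : ℕ} (hk : k ≤ 5) (hρ : P.ρ ∈ K) (h1 : P.r k ∈ K) (h2 : P.r (k + 1) ∈ K)
    (hl : P.l k ∈ K) {y z : ℂ} (hy : y ∈ K) (h : E P k y z = 0) : z ∈ K := by
  rw [E_symm_quad] at h
  refine mem_of_quad hK ?_ ?_ ?_ ?_ h
  · exact K.mul_mem h2 (K.sub_mem h1 (K.mul_mem hρ hy))
  · exact K.sub_mem (K.add_mem (K.mul_mem (K.pow_mem h2 2) hy)
      (K.mul_mem (K.sub_mem (K.mul_mem h1 hy) hρ) (K.sub_mem h1 (K.mul_mem hρ hy)))) (K.mul_mem hl hy)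
  · exact K.mul_mem (K.mul_mem h2 hy) (K.sub_mem (K.mul_mem h1 hy) hρ)
  · exact nd_aux (hP.r0 _ (by omega)) (hP.r0 _ (by omega)) (hP.rρ _ (by omega))

include hK hP in
lemma mem_left {k : ℕ} (hk : k ≤ 5) (hρ : P.ρ ∈ K) (h1 : P.r k ∈ K) (h2 : P.r (k + 1) ∈ K)
    (hl : P.l k ∈ K) {y z : ℂ} (hz : z ∈ K) (h : E P k y z = 0) : y ∈ K := by
  rw [E_eq] at h
  refine mem_of_quad hK ?_ ?_ ?_ ?_ h
  · exact K.mul_mem h1 (K.sub_mem h2 (K.mul_mem hρ hz))
  · exact K.sub_mem (K.add_mem (K.mul_mem (K.pow_mem h1 2) hz)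
      (K.mul_mem (K.sub_mem (K.mul_mem h2 hz) hρ) (K.sub_mem h2 (K.mul_mem hρ hz)))) (K.mul_mem hl hz)
  · exact K.mul_mem (K.mul_mem h1 hz) (K.sub_mem (K.mul_mem h2 hz) hρ)
  · exact nd_aux (hP.r0 _ (by omega)) (hP.r0 _ (by omega)) (hP.rρ _ (by omega))

lemma E_of_roots {k : ℕ} {z y₁ y₂ : ℂ} (hs : cA P k z * (y₁ + y₂) = - cB P k z)
    (hp : cA P k z * (y₁ * y₂) = cC P k z) : E P k y₁ z = 0 ∧ E P k y₂ z = 0 := by
  have hB : cB P k z = - (cA P k z * (y₁ + y₂)) := by rw [hs]; ring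
  constructor <;> (rw [E_eq, hB, ← hp]; ring)

include hK hP in
/-- Generic values are not zeros, first version. -/
lemma NZ1 (hρ : P.ρ ∈ K) (hr : ∀ j ≤ 6, P.r j ∈ K) {a : ℂ} (ha : a ∈ K) (k : ℕ) (hk : k ≤ 5)
    (hl : ∀ j ≤ k, P.l j ∈ K) {z : ℂ} (hz : z ∉ K) : (F P k a).eval z ≠ 0 := by
  induction k generalizing z with
  | zero =>
    intro h
    rw [F_zero_eval] at h
    exact hz (mem_right hK hP hk hρ (hr _ (by omega)) (hr _ (by omega)) (hl _ le_rfl) ha h)
  | succ k ih =>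
    intro h
    have hA : cA P (k + 1) z ≠ 0 := by
      intro h0
      have h1 : P.r (k + 1 + 1) - P.ρ * z = 0 := (mul_eq_zero.1 h0).resolve_left (hP.r0 _ (by omega))
      apply hz
      have h2 : z = P.r (k + 1 + 1) / P.ρ := by
        have := hP.ρ0
        field_simp
        linear_combination -h1
      rw [h2]
      exact K.div_mem (hr _ (by omega)) hρ
    obtain ⟨y₁, y₂, hs, hp, -⟩ := exists_roots (cA P (k + 1) z) (cB P (k + 1) z) (cC P (k + 1) z) hA
    obtain ⟨h1, h2⟩ := E_of_roots hs hp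
    rw [F_succ_prod P k a z y₁ y₂ hA hs hp] at h
    have h3 := (mul_eq_zero.1 h).resolve_left (pow_ne_zero _ hA)
    have ih := @ih (by omega) (fun j hj => hl j (by omega))
    rcases mul_eq_zero.1 h3 with h4 | h4
    · have hy : y₁ ∈ K := by_contra fun hy => ih hy h4
      exact hz (mem_right hK hP hk hρ (hr _ (by omega)) (hr _ (by omega)) (hl _ le_rfl) hy h1)
    · have hy : y₂ ∈ K := by_contra fun hy => ih hy h4
      exact hz (mem_right hK hP hk hρ (hr _ (by omega)) (hr _ (by omega)) (hl _ le_rfl) hy h2)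

include hK hP in
/-- Generic values are not zeros, second version. -/
lemma NZ2 (hρ : P.ρ ∈ K) (hr : ∀ j ≤ 6, P.r j ∈ K) (k : ℕ) (hk : k ≤ 5)
    (hl : ∀ j ≤ k, P.l j ∈ K) {a : ℂ} (ha : a ∉ K) {z : ℂ} (hz : z ∈ K) : (F P k a).eval z ≠ 0 := by
  induction k generalizing a z with
  | zero =>
    intro h
    rw [F_zero_eval] at h
    exact ha (mem_left hK hP hk hρ (hr _ (by omega)) (hr _ (by omega)) (hl _ le_rfl) hz h)
  | succ k ih =>
    have ih := @ih (by omega) (fun j hj => hl j (by omega))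
    have key : ∀ a z : ℂ, a ∉ K → z ∈ K → cA P (k + 1) z ≠ 0 → (F P (k + 1) a).eval z ≠ 0 := by
      intro a z ha hz hA h
      obtain ⟨y₁, y₂, hs, hp, -⟩ := exists_roots (cA P (k + 1) z) (cB P (k + 1) z) (cC P (k + 1) z) hA
      obtain ⟨h1, h2⟩ := E_of_roots hs hp
      rw [F_succ_prod P k a z y₁ y₂ hA hs hp] at h
      have h3 := (mul_eq_zero.1 h).resolve_left (pow_ne_zero _ hA)
      rcases mul_eq_zero.1 h3 with h4 | h4
      · exact ih ha (mem_left hK hP hk hρ (hr _ (by omega)) (hr _ (by omega)) (hl _ le_rfl) hz h1) h4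
      · exact ih ha (mem_left hK hP hk hρ (hr _ (by omega)) (hr _ (by omega)) (hl _ le_rfl) hz h2) h4
    by_cases hA : cA P (k + 1) z = 0
    · have h1 : P.r (k + 1 + 1) - P.ρ * z = 0 := (mul_eq_zero.1 hA).resolve_left (hP.r0 _ (by omega))
      have hr0 := hP.r0 (k + 1 + 1) (by omega)
      have hz0 : z ≠ 0 := by
        rintro rfl
        apply hr0
        simpa using h1
      have ha0 : a ≠ 0 := by
        rintro rfl
        exact ha K.zero_mem
      rw [F_inv P hP.ρ0 (k + 1) (fun j hj => hP.r0 j (by omega)) ha0 hz0]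
      refine mul_ne_zero (pow_ne_zero _ (mul_ne_zero ha0 hz0)) (key _ _ ?_ (K.inv_mem hz) ?_)
      · intro h
        apply ha
        have := K.inv_mem h
        rwa [inv_inv] at this
      · intro h
        have h2 := cA_inv P (k + 1) hz0
        rw [h, zero_mul] at h2
        rcases nd_aux (z := z) (hP.r0 (k + 1) (by omega)) hr0 (hP.rρ _ (by omega)) with h3 | h3
        · exact h3 hA
        · exact h3 h2.symm
    · exact key a z ha hz hA

include hK hP in
/-- Zeros of the eliminant extend to chains. -/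
lemma exists_chain (hρ : P.ρ ∈ K) (hr : ∀ j ≤ 6, P.r j ∈ K) (a : ℂ) (k : ℕ) (hk : k ≤ 5)
    (hl : ∀ j ≤ k, P.l j ∈ K) {z : ℂ} (hz : z ∉ K) (h : (F P k a).eval z = 0) :
    ∃ t : ℕ → ℂ, t 0 = a ∧ t (k + 1) = z ∧ (∀ j ≤ k, E P j (t j) (t (j + 1)) = 0) ∧
      ∀ j, 1 ≤ j → j ≤ k + 1 → t j ∉ K := by
  induction k generalizing z with
  | zero =>
    refine ⟨fun j => if j = 0 then a else z, rfl, rfl, ?_, ?_⟩
    · intro j hj
      obtain rfl : j = 0 := by omega
      rw [F_zero_eval] at h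
      simpa using h
    · intro j hj _
      have : j ≠ 0 := by omega
      simpa [this] using hz
  | succ k ih =>
    have hA : cA P (k + 1) z ≠ 0 := by
      intro h0
      have h1 : P.r (k + 1 + 1) - P.ρ * z = 0 := (mul_eq_zero.1 h0).resolve_left (hP.r0 _ (by omega))
      apply hz
      have h2 : z = P.r (k + 1 + 1) / P.ρ := by
        have := hP.ρ0
        field_simp
        linear_combination -h1
      rw [h2]
      exact K.div_mem (hr _ (by omega)) hρ
    obtain ⟨y₁, y₂, hs, hp, -⟩ := exists_roots (cA P (k + 1) z) (cB P (k + 1) z) (cC P (k + 1) z) hA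
    obtain ⟨h1, h2⟩ := E_of_roots hs hp
    rw [F_succ_prod P k a z y₁ y₂ hA hs hp] at h
    have h3 := (mul_eq_zero.1 h).resolve_left (pow_ne_zero _ hA)
    have ih := @ih (by omega) (fun j hj => hl j (by omega))
    have key : ∀ y : ℂ, E P (k + 1) y z = 0 → (F P k a).eval y = 0 →
        ∃ t : ℕ → ℂ, t 0 = a ∧ t (k + 1 + 1) = z ∧ (∀ j ≤ k + 1, E P j (t j) (t (j + 1)) = 0) ∧
          ∀ j, 1 ≤ j → j ≤ k + 1 + 1 → t j ∉ K := by
      intro y hy hFy
      have hyK : y ∉ K := fun hyK => hz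
        (mem_right hK hP hk hρ (hr _ (by omega)) (hr _ (by omega)) (hl _ le_rfl) hyK hy)
      obtain ⟨t, t0, t1, t2, t3⟩ := ih hyK hFy
      refine ⟨fun j => if j = k + 1 + 1 then z else t j, ?_, ?_, ?_, ?_⟩
      · simpa using t0
      · simp
      · intro j hj
        rcases Nat.lt_or_eq_of_le hj with hj' | rfl
        · have e1 : j ≠ k + 1 + 1 := by omega
          have e2 : j + 1 ≠ k + 1 + 1 := by omega
          simp only [e1, e2, if_false]
          exact t2 j (by omega)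
        · have e1 : k + 1 ≠ k + 1 + 1 := by omega
          simp only [e1, if_false, if_true]
          rw [t1]
          exact hy
      · intro j hj1 hj2
        by_cases e : j = k + 1 + 1
        · simpa [e] using hz
        · simp only [e, if_false]
          exact t3 j hj1 (by omega)
    rcases mul_eq_zero.1 h3 with h4 | h4
    · exact key y₁ h1 h4
    · exact key y₂ h2 h4

include hK hP in
/-- Zeros of the last eliminant give closed chains. -/
lemma exists_closed (hρ : P.ρ ∈ K) (hr : ∀ j ≤ 6, P.r j ∈ K) (hl : ∀ j ≤ 4, P.l j ∈ K)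
    (hl5 : P.l 5 ∉ K) {a : ℂ} (ha0 : a ≠ 0) (ha1 : P.r 0 * a ≠ P.ρ) (ha2 : P.ρ * a ≠ P.r 0)
    (h : (F P 5 a).eval a = 0) :
    a ∉ K ∧ ∃ t : ℕ → ℂ, t 0 = a ∧ t 6 = a ∧ (∀ j ≤ 5, E P j (t j) (t (j + 1)) = 0) ∧
      ∀ j ≤ 6, t j ≠ 0 := by
  have hA : cA P 5 a ≠ 0 := by
    refine mul_ne_zero (hP.r0 _ (by omega)) ?_
    rw [hP.r6]
    intro h0
    exact ha2 (by linear_combination -h0)
  obtain ⟨y₁, y₂, hs, hp, -⟩ := exists_roots (cA P 5 a) (cB P 5 a) (cC P 5 a) hA
  obtain ⟨h1, h2⟩ := E_of_roots hs hp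
  rw [F_succ_prod P 4 a a y₁ y₂ hA hs hp] at h
  have h3 := (mul_eq_zero.1 h).resolve_left (pow_ne_zero _ hA)
  have key : ∀ y : ℂ, E P 5 y a = 0 → (F P 4 a).eval y = 0 →
      a ∉ K ∧ ∃ t : ℕ → ℂ, t 0 = a ∧ t 6 = a ∧ (∀ j ≤ 5, E P j (t j) (t (j + 1)) = 0) ∧
      ∀ j ≤ 6, t j ≠ 0 := by
    intro y hy hF
    have hy0 : y ≠ 0 := by
      rintro rfl
      unfold E at hy
      rw [show 5 + 1 = 6 from rfl, hP.r6] at hy
      have h4 : (P.r 0 * a - P.ρ) * (P.r 5 * a) = 0 := by linear_combination hy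
      rcases mul_eq_zero.1 h4 with h5 | h5
      · exact ha1 (by linear_combination h5)
      · rcases mul_eq_zero.1 h5 with h6 | h6
        · exact hP.r0 5 (by omega) h6
        · exact ha0 h6
    have hboth : ¬ (y ∈ K ∧ a ∈ K) := by
      rintro ⟨hyK, haK⟩
      apply hl5
      unfold E at hy
      rw [show 5 + 1 = 6 from rfl] at hy
      have h4 : P.l 5 = (P.r 5 * y + P.r 6 * a - P.ρ) * (P.r 5 * a + P.r 6 * y - P.ρ * y * a) / (y * a) := by
        field_simp
        linear_combination -hy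
      rw [h4]
      have hr5 := hr 5 (by omega)
      have hr6 := hr 6 (by omega)
      refine K.div_mem (K.mul_mem ?_ ?_) (K.mul_mem hyK haK)
      · exact K.sub_mem (K.add_mem (K.mul_mem hr5 hyK) (K.mul_mem hr6 haK)) hρ
      · exact K.sub_mem (K.add_mem (K.mul_mem hr5 haK) (K.mul_mem hr6 hyK))
          (K.mul_mem (K.mul_mem hρ hyK) haK)
    have hyK : y ∉ K := fun hyK => by
      have haK : a ∉ K := fun haK => hboth ⟨hyK, haK⟩
      exact NZ2 hK hP hρ hr 4 (by omega) hl haK hyK hF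
    have haK : a ∉ K := fun haK => NZ1 hK hP hρ hr haK 4 (by omega) hl hyK hF
    refine ⟨haK, ?_⟩
    obtain ⟨t, t0, t1, t2, t3⟩ := exists_chain hK hP hρ hr a 4 (by omega) hl hyK hF
    refine ⟨fun j => if j = 6 then a else t j, by simpa using t0, by simp, ?_, ?_⟩
    · intro j hj
      rcases Nat.lt_or_eq_of_le hj with hj' | rfl
      · have e1 : j ≠ 6 := by omega
        have e2 : j + 1 ≠ 6 := by omega
        simp only [e1, e2, if_false]
        exact t2 j (by omega)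
      · simp only [show (5 : ℕ) ≠ 6 by norm_num, if_false, show (5 : ℕ) + 1 = 6 by norm_num, if_true]
        have t1' : t 5 = y := t1
        rw [t1']
        exact hy
    · intro j hj
      by_cases e : j = 6
      · simpa [e] using ha0
      · simp only [e, if_false]
        by_cases e0 : j = 0
        · rw [e0, t0]; exact ha0
        · intro h0
          have := t3 j (by omega) (by omega)
          rw [h0] at this
          exact this K.zero_mem
  rcases mul_eq_zero.1 h3 with h4 | h4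
  · exact key y₁ h1 h4
  · exact key y₂ h2 h4

/-- Closed chains give zeros of the last eliminant. -/
lemma eval_of_chain (P : Par ℂ) (t : ℕ → ℂ) (k : ℕ) (h : ∀ j ≤ k, E P j (t j) (t (j + 1)) = 0) :
    (F P k (t 0)).eval (t (k + 1)) = 0 := by
  induction k with
  | zero => rw [F_zero_eval]; exact h 0 le_rfl
  | succ k ih =>
    exact F_succ_zero P k (t 0) (t (k + 1)) (t (k + 1 + 1)) (ih fun j hj => h j (by omega))
      (h (k + 1) le_rfl)

lemma quad_finite {α β γ : ℂ} (h0 : α ≠ 0 ∨ γ ≠ 0) :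
    {z : ℂ | α * z ^ 2 + β * z + γ = 0}.Finite := by
  set p : ℂ[X] := C α * X ^ 2 + C β * X + C γ with hp
  have hp0 : p ≠ 0 := by
    intro h1
    rcases h0 with h | h
    · apply h
      have := congrArg (fun p => coeff p 2) h1
      simpa [hp, coeff_X, coeff_C] using this
    · apply h
      have := congrArg (fun p => coeff p 0) h1
      simpa [hp, coeff_X, coeff_C] using this
  refine (p.roots.toFinset.finite_toSet).subset ?_
  intro z hz
  simp only [Finset.mem_coe, Multiset.mem_toFinset, mem_roots hp0, IsRoot.def]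
  rw [hp]
  simpa using hz

include hP in
/-- Finitely many solutions of one relation. -/
lemma E_finite (k : ℕ) (hk : k ≤ 5) (y : ℂ) : {z : ℂ | E P k y z = 0}.Finite := by
  simp only [E_symm_quad]
  exact quad_finite (nd_aux (hP.r0 (k + 1) (by omega)) (hP.r0 k (by omega)) (hP.rρ k (by omega)))

end Pool.Agent.L7h85.Rig
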