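import Pool.Agent.L7h85.Rig.Loc2

set_option autoImplicit false

/-! # Existence of a real zero outside the unit circle -/

open Polynomial Topology Filter

namespace Pool.Agent.L7h85.Rig

lemma pos_on {S : Set ℝ} (hS : IsPreconnected S) {f : ℝ → ℝ} (hf : Continuous f)
    (h0 : ∀ x ∈ S, f x ≠ 0) {x0 : ℝ} (hx0 : x0 ∈ S) (hp : 0 < f x0) : ∀ x ∈ S, 0 < f x := by
  intro x hx
  by_contra h
  push Not at h
  obtain ⟨c, hc, hc0⟩ := hS.intermediate_value hx hx0 hf.continuousOn ⟨h, hp.le⟩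
  exact h0 c hc hc0

lemma real_limit {l : Filter ℝ} [l.NeBot] {g : ℝ → ℝ} {L : ℂ} (hL : L ≠ 0)
    (h : Tendsto (fun x => ((g x : ℝ) : ℂ)) l (𝓝 L)) : L.re ≠ 0 ∧ Tendsto g l (𝓝 L.re) := by
  have h1 : Tendsto g l (𝓝 L.re) := by
    have := (Complex.continuous_re.tendsto L).comp h
    refine this.congr fun x => ?_
    simp
  have h2 : Tendsto (fun _ : ℝ => (0 : ℝ)) l (𝓝 L.im) := by
    have := (Complex.continuous_im.tendsto L).comp h
    refine this.congr fun x => ?_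
    simp
  have h3 : L.im = 0 := tendsto_nhds_unique h2 tendsto_const_nhds
  refine ⟨fun h4 => hL (Complex.ext ?_ ?_), h1⟩
  · simpa using h4
  · simpa using h3

variable (P : Par ℝ) {D : ℕ → Derivation ℚ ℂ ℂ}

/-- The real eliminant. -/
noncomputable def RR (a : ℝ) : ℝ := (F P 5 a).eval a

lemma RR_cont : Continuous (RR P) := by
  have := (continuous_F P 5).comp (continuous_id.prodMk continuous_id)
  exact this

lemma RR_cx (a : ℝ) : (F P.cx 5 (a : ℂ)).eval (a : ℂ) = ((RR P a : ℝ) : ℂ) := F_cx P 5 a a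

lemma RR_inv (hP : P.cx.ND) {a : ℝ} (ha : a ≠ 0) : RR P a = (a * a) ^ 64 * RR P a⁻¹ := by
  have h := F_inv P.cx hP.ρ0 5 (fun j hj => hP.r0 j hj) (a := (a : ℂ)) (by exact_mod_cast ha)
    (z := (a : ℂ)) (by exact_mod_cast ha)
  rw [RR_cx] at h
  have h2 : ((a : ℂ))⁻¹ = ((a⁻¹ : ℝ) : ℂ) := by push_cast; rfl
  rw [h2, RR_cx] at h
  norm_num at h
  have h3 : ((RR P a : ℝ) : ℂ) = (((a * a) ^ 64 * RR P a⁻¹ : ℝ) : ℂ) := by
    rw [h]; push_cast; rfl
  exact_mod_cast h3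

lemma RR_pos (hP : P.cx.ND) (hD : P.cx.Gn D) {e : ℝ} (he : e ^ 2 = 1) : 0 < RR P e := by
  have hρ : P.ρ ≠ 0 := by
    have := hP.ρ0
    simpa [Par.cx, Par.map] using this
  have hr : ∀ j ≤ 4 + 2, P.r j ≠ 0 := by
    intro j hj
    have := hP.r0 j hj
    simpa [Par.cx, Par.map] using this
  have hne : ∀ j ≤ 6, P.r j ^ 2 ≠ P.ρ ^ 2 := by
    intro j hj h
    apply hP.rρ j hj
    simp only [Par.cx, Par.map, Complex.ofRealHom_eq_coe]
    exact_mod_cast h
  have h0 : 0 ≤ RR P e := F_nonneg P hρ 4 hr (hne 6 le_rfl) he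
  refine lt_of_le_of_ne h0 fun h => ?_
  have he0 : (e : ℂ) ≠ 0 := by
    intro h
    have : e = 0 := by exact_mod_cast h
    rw [this] at he
    norm_num at he
  have hec : (e : ℂ) ^ 2 = 1 := by exact_mod_cast he
  have hr6 := hP.rρ 0 (by omega)
  have := exists_closed (K := kerD (D 5)) (fun x => kerD_sq) hP (hD.ρ 5 le_rfl)
    (fun j hj => hD.r 5 le_rfl j hj) (fun j hj => by
      have := hD.l 5 le_rfl j (by omega)
      rw [if_neg (by omega)] at this
      exact this) (fun h => by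
      have h2 := hD.l 5 le_rfl 5 le_rfl
      rw [if_pos rfl] at h2
      rw [mem_kerD, h2] at h
      exact one_ne_zero h) he0 (fun h => hr6 (by rw [← h, mul_pow, hec, mul_one]))
      (fun h => hr6 (by rw [← h, mul_pow, hec, mul_one])) (by rw [RR_cx, ← h]; simp)
  apply this.1
  apply kerD_sq
  rw [hec]
  exact (kerD (D 5)).one_mem

/-- The eliminant has a zero in `(-1, 1)` besides the degenerate ones. -/
theorem exists_root (hP : P.cx.ND) (hD : P.cx.Gn D) (hρ : 0 < P.ρ) (hr : 0 < P.r 0) :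
    ∃ a : ℝ, -1 < a ∧ a < 1 ∧ a ≠ 0 ∧ P.r 0 * a ≠ P.ρ ∧ P.ρ * a ≠ P.r 0 ∧ RR P a = 0 := by
  by_contra hcon
  push Not at hcon
  have hcont := RR_cont P
  have h1 : 0 < RR P 1 := RR_pos P hP hD (by norm_num)
  have hm1 : 0 < RR P (-1) := RR_pos P hP hD (by norm_num)
  have hne : P.r 0 ≠ P.ρ := by
    intro h
    apply hP.rρ 0 (by omega)
    simp only [Par.cx, Par.map, Complex.ofRealHom_eq_coe]
    rw [h]
  set σ : ℝ := P.ρ / P.r 0 with hσ
  have hσ0 : 0 < σ := div_pos hρ hr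
  -- the filter
  have hnb : (𝓝[≠] (0 : ℝ)).NeBot := inferInstance
  have hδ : Tendsto (fun x : ℝ => (x : ℂ)) (𝓝[≠] (0 : ℝ)) (𝓝 0) := by
    have := (Complex.continuous_ofReal.tendsto (0 : ℝ)).mono_left
      (nhdsWithin_le_nhds (s := {(0 : ℝ)}ᶜ))
    simpa using this
  have hδ0 : ∀ᶠ x : ℝ in 𝓝[≠] (0 : ℝ), ((x : ℝ) : ℂ) ≠ 0 := by
    filter_upwards [self_mem_nhdsWithin] with x hx
    have hx' : x ≠ 0 := hx
    exact_mod_cast hx'
  obtain ⟨L, hL, hT⟩ := ord_zero hδ hδ0 hP hD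
  obtain ⟨L', hL', hT'⟩ := ord_sigma hδ hδ0 hP hD
  have hT1 : Tendsto (fun x : ℝ => ((RR P x / x ^ 14 : ℝ) : ℂ)) (𝓝[≠] (0 : ℝ)) (𝓝 L) := by
    refine hT.congr fun x => ?_
    rw [RR_cx]
    push_cast
    rfl
  have hT2 : Tendsto (fun x : ℝ => ((RR P (σ + x) / x ^ 5 : ℝ) : ℂ)) (𝓝[≠] (0 : ℝ)) (𝓝 L') := by
    refine hT'.congr fun x => ?_
    have e1 : P.cx.ρ / P.cx.r 0 + (x : ℂ) = ((σ + x : ℝ) : ℂ) := by
      simp [Par.cx, Par.map, hσ]
    rw [e1, RR_cx]
    push_cast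
    rfl
  obtain ⟨hL1, hL2⟩ := real_limit hL hT1
  obtain ⟨hL1', hL2'⟩ := real_limit hL' hT2
  -- the position of the degenerate zero in (0, 1)
  obtain ⟨s, hs0, hs1, hscase⟩ : ∃ s : ℝ, 0 < s ∧ s < 1 ∧
      ((s = σ) ∨ (s = σ⁻¹)) := by
    rcases lt_trichotomy (P.r 0) P.ρ with h | h | h
    · refine ⟨σ⁻¹, inv_pos.2 hσ0, ?_, Or.inr rfl⟩
      rw [hσ, inv_div]
      exact (div_lt_one hρ).2 h
    · exact absurd h hne
    · exact ⟨σ, hσ0, (div_lt_one hr).2 h, Or.inl rfl⟩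
  have hroot : ∀ a : ℝ, -1 < a → a < 1 → a ≠ 0 → a ≠ s → RR P a ≠ 0 := by
    intro a ha1 ha2 ha0 has
    have hA : P.r 0 * a ≠ P.ρ := by
      intro h
      have ha : a = σ := by rw [hσ]; field_simp; linear_combination h
      rcases hscase with h2 | h2
      · exact has (by rw [ha, h2])
      · have : 1 < a := by
          rw [ha]
          rw [h2] at hs1
          exact (inv_lt_one₀ hσ0).1 hs1
        linarith
    have hB : P.ρ * a ≠ P.r 0 := by
      intro h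
      have ha : a = σ⁻¹ := by rw [hσ, inv_div]; field_simp; linear_combination h
      rcases hscase with h2 | h2
      · have : 1 < a := by
          rw [ha]
          rw [h2] at hs1
          exact (one_lt_inv₀ hσ0).2 hs1
        linarith
      · exact has (by rw [ha, h2])
    exact hcon a ha1 ha2 ha0 hA hB
  -- signs
  have s1 : ∀ x ∈ Set.Ioc s 1, 0 < RR P x := by
    refine pos_on isPreconnected_Ioc hcont ?_ (x0 := 1) ⟨hs1, le_rfl⟩ h1
    rintro x ⟨hx1, hx2⟩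
    rcases lt_or_eq_of_le hx2 with hx3 | rfl
    · exact hroot x (by linarith) hx3 (by linarith) (by linarith)
    · exact h1.ne'
  have s2 : ∀ x ∈ Set.Ico (-1 : ℝ) 0, 0 < RR P x := by
    refine pos_on isPreconnected_Ico hcont ?_ (x0 := -1) ⟨le_rfl, by norm_num⟩ hm1
    rintro x ⟨hx1, hx2⟩
    rcases lt_or_eq_of_le hx1 with hx3 | rfl
    · exact hroot x hx3 (by linarith) (by linarith) (by linarith)
    · exact hm1.ne'
  have hleft : (𝓝[<] (0 : ℝ)) ≤ 𝓝[≠] (0 : ℝ) := nhdsWithin_mono _ fun x hx => ne_of_lt hx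
  have hright : (𝓝[>] (0 : ℝ)) ≤ 𝓝[≠] (0 : ℝ) := nhdsWithin_mono _ fun x hx => ne_of_gt hx
  have hLpos : 0 < L.re := by
    refine lt_of_le_of_ne ?_ (Ne.symm hL1)
    refine ge_of_tendsto (hL2.mono_left hleft) ?_
    have : Set.Ico (-1 : ℝ) 0 ∈ 𝓝[<] (0 : ℝ) := Ico_mem_nhdsLT (by norm_num)
    filter_upwards [this] with x hx
    exact div_nonneg (s2 x hx).le (by positivity)
  obtain ⟨x0, hx0, hx0pos⟩ : ∃ x ∈ Set.Ioo (0 : ℝ) s, 0 < RR P x := by
    have h2 := (hL2.mono_left hright).eventually (lt_mem_nhds hLpos)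
    have h3 : Set.Ioo (0 : ℝ) s ∈ 𝓝[>] (0 : ℝ) := Ioo_mem_nhdsGT hs0
    obtain ⟨x, hx1, hx2⟩ := (h2.and h3).exists
    refine ⟨x, hx2, ?_⟩
    have h4 : 0 < x ^ 14 := by have := hx2.1; positivity
    exact (div_pos_iff_of_pos_right h4).1 hx1
  have s3 : ∀ x ∈ Set.Ioo (0 : ℝ) s, 0 < RR P x := by
    refine pos_on isPreconnected_Ioo hcont ?_ hx0 hx0pos
    rintro x ⟨hx1, hx2⟩
    exact hroot x (by linarith) (by linarith) hx1.ne' hx2.ne
  -- near `s` the eliminant is positive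
  have s4 : ∀ x, 0 < x → x < 1 → x ≠ s → 0 < RR P x := by
    intro x hx1 hx2 hx3
    rcases lt_or_gt_of_ne hx3 with h | h
    · exact s3 x ⟨hx1, h⟩
    · exact s1 x ⟨h, hx2.le⟩
  have s5 : ∀ᶠ x in 𝓝[≠] (0 : ℝ), 0 < RR P (σ + x) := by
    rcases hscase with h2 | h2
    · have hn : Set.Ioo (-σ) (1 - σ) ∈ 𝓝[≠] (0 : ℝ) := by
        apply mem_nhdsWithin_of_mem_nhds
        exact Ioo_mem_nhds (by linarith) (by rw [← h2]; linarith)
      filter_upwards [hn, self_mem_nhdsWithin] with x hx hx0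
      have hx0' : x ≠ 0 := hx0
      refine s4 _ (by linarith [hx.1]) (by linarith [hx.2]) ?_
      rw [h2]
      intro h
      exact hx0' (by linarith)
    · have hσ1 : 1 < σ := by
        rw [h2] at hs1
        exact (inv_lt_one₀ hσ0).1 hs1
      have hn : Set.Ioo (1 - σ) 1 ∈ 𝓝[≠] (0 : ℝ) := by
        apply mem_nhdsWithin_of_mem_nhds
        exact Ioo_mem_nhds (by linarith) (by norm_num)
      filter_upwards [hn, self_mem_nhdsWithin] with x hx hx0
      have hx0' : x ≠ 0 := hx0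
      have hx1 : 1 < σ + x := by linarith [hx.1]
      rw [RR_inv P hP (by linarith)]
      have h3 : 0 < RR P (σ + x)⁻¹ := by
        refine s4 _ (inv_pos.2 (by linarith)) (inv_lt_one_of_one_lt₀ hx1) ?_
        rw [h2]
        intro h
        have := inv_injective h
        exact hx0' (by linarith)
      have h4 : 0 < σ + x := by linarith
      positivity
  have hge : 0 ≤ L'.re := by
    refine ge_of_tendsto (hL2'.mono_left hright) ?_
    filter_upwards [s5.filter_mono hright, self_mem_nhdsWithin] with x hx hx2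
    have hx3 : 0 < x := hx2
    positivity
  have hle : L'.re ≤ 0 := by
    refine le_of_tendsto (hL2'.mono_left hleft) ?_
    filter_upwards [s5.filter_mono hleft, self_mem_nhdsWithin] with x hx hx2
    have hx3 : x < 0 := hx2
    have h5 : x ^ 5 < 0 := Odd.pow_neg (by decide) hx3
    exact (div_neg_of_pos_of_neg hx h5).le
  exact hL1' (le_antisymm hle hge)

end Pool.Agent.L7h85.Rig
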