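import Pool.Agent.H135R2.VS.Der
import Pool.Agent.L7h85.Rig.Root

set_option autoImplicit false

/-! # The graph `K_{4,4}` minus three disjoint edges: rigidity and genericity -/

open Polynomial Topology Filter

namespace Pool.Agent.L7h85.Rig

/-- The edges. -/
def Lst : List (Fin 8 × Fin 8) :=
  [(0, 1), (0, 2), (1, 3), (0, 4), (1, 5), (0, 6), (1, 7),
    (2, 3), (3, 4), (4, 5), (5, 6), (6, 7), (7, 2)]

/-- The graph. -/
def Gr : SimpleGraph (Fin 8) := SimpleGraph.fromRel fun i j => (i, j) ∈ Lst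

lemma Gr_adj_of {i j : Fin 8} (h : (i, j) ∈ Lst) : Gr.Adj i j := by
  rw [Gr, SimpleGraph.fromRel_adj]
  refine ⟨?_, Or.inl h⟩
  revert h
  revert i j
  decide

/-- Edge conditions for symmetric functions. -/
lemma forall_adj_iff {S : Type*} {d d' : Fin 8 → Fin 8 → S} (hs : ∀ i j, d i j = d j i)
    (hs' : ∀ i j, d' i j = d' j i) :
    (∀ i j, Gr.Adj i j → d i j = d' i j) ↔ ∀ e ∈ Lst, d e.1 e.2 = d' e.1 e.2 := by
  constructor
  · intro h e he
    exact h _ _ (Gr_adj_of he)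
  · intro h i j hij
    rw [Gr, SimpleGraph.fromRel_adj] at hij
    rcases hij.2 with h1 | h1
    · exact h _ h1
    · rw [hs, hs']; exact h _ h1

lemma forall_Lst {p : Fin 8 × Fin 8 → Prop} : (∀ e ∈ Lst, p e) ↔
    p (0, 1) ∧ p (0, 2) ∧ p (1, 3) ∧ p (0, 4) ∧ p (1, 5) ∧ p (0, 6) ∧ p (1, 7) ∧
    p (2, 3) ∧ p (3, 4) ∧ p (4, 5) ∧ p (5, 6) ∧ p (6, 7) ∧ p (7, 2) := by
  simp [Lst]

/-! ### Cyclic linear systems -/

lemma cyc_inj {A B α : Fin 6 → ℝ} (hB : ∀ k, B k ≠ 0)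
    (hAB : A 0 * A 1 * A 2 * A 3 * A 4 * A 5 ≠ B 0 * B 1 * B 2 * B 3 * B 4 * B 5)
    (h : ∀ k, α k * A k = α (k + 1) * B k) : α = 0 := by
  have h0 := h 0
  have h1 := h 1
  have h2 := h 2
  have h3 := h 3
  have h4 := h 4
  have h5 := h 5
  simp only [show (0 : Fin 6) + 1 = 1 from rfl, show (1 : Fin 6) + 1 = 2 from rfl,
    show (2 : Fin 6) + 1 = 3 from rfl, show (3 : Fin 6) + 1 = 4 from rfl,
    show (4 : Fin 6) + 1 = 5 from rfl, show (5 : Fin 6) + 1 = 0 from rfl] at h0 h1 h2 h3 h4 h5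
  have key : α 0 * (A 0 * A 1 * A 2 * A 3 * A 4 * A 5 - B 0 * B 1 * B 2 * B 3 * B 4 * B 5) = 0 := by
    linear_combination (A 1 * A 2 * A 3 * A 4 * A 5) * h0 + (B 0 * A 2 * A 3 * A 4 * A 5) * h1 +
      (B 0 * B 1 * A 3 * A 4 * A 5) * h2 + (B 0 * B 1 * B 2 * A 4 * A 5) * h3 +
      (B 0 * B 1 * B 2 * B 3 * A 5) * h4 + (B 0 * B 1 * B 2 * B 3 * B 4) * h5
  have a0 : α 0 = 0 := (mul_eq_zero.1 key).resolve_right (sub_ne_zero.2 hAB)
  have a1 : α 1 = 0 := by
    rw [a0, zero_mul] at h0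
    exact (mul_eq_zero.1 h0.symm).resolve_right (hB 0)
  have a2 : α 2 = 0 := by
    rw [a1, zero_mul] at h1
    exact (mul_eq_zero.1 h1.symm).resolve_right (hB 1)
  have a3 : α 3 = 0 := by
    rw [a2, zero_mul] at h2
    exact (mul_eq_zero.1 h2.symm).resolve_right (hB 2)
  have a4 : α 4 = 0 := by
    rw [a3, zero_mul] at h3
    exact (mul_eq_zero.1 h3.symm).resolve_right (hB 3)
  have a5 : α 5 = 0 := by
    rw [a4, zero_mul] at h4
    exact (mul_eq_zero.1 h4.symm).resolve_right (hB 4)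
  ext k
  fin_cases k <;> assumption

lemma cyc_surj {A B : Fin 6 → ℝ} (hB : ∀ k, B k ≠ 0)
    (hAB : A 0 * A 1 * A 2 * A 3 * A 4 * A 5 ≠ B 0 * B 1 * B 2 * B 3 * B 4 * B 5)
    (c : Fin 6 → ℝ) : ∃ α : Fin 6 → ℝ, ∀ k, α k * A k - α (k + 1) * B k = c k := by
  let T : (Fin 6 → ℝ) →ₗ[ℝ] (Fin 6 → ℝ) :=
    { toFun := fun α k => α k * A k - α (k + 1) * B k
      map_add' := by intro x y; ext k; simp; ring
      map_smul' := by intro x y; ext k; simp; ring }
  have hinj : Function.Injective T := by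
    rw [injective_iff_map_eq_zero]
    intro α hα
    apply cyc_inj hB hAB
    intro k
    have := congrFun hα k
    simp only [T, LinearMap.coe_mk, AddHom.coe_mk, Pi.zero_apply] at this
    linear_combination this
  obtain ⟨α, hα⟩ := (LinearMap.injective_iff_surjective.1 hinj) c
  exact ⟨α, fun k => congrFun hα k⟩

/-! ### Polynomials in the coordinates -/

/-- The bracket of `i, j` with respect to the hub `h` of `i`. -/
def br {S : Type*} [CommRing S] (p : Fin 8 → Fin 2 → S) (i j v h : Fin 8) : S :=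
  (p i 0 - p j 0) * (-(p v 1 - p h 1)) + (p i 1 - p j 1) * (p v 0 - p h 0)

/-- Squared distance. -/
def sd {S : Type*} [CommRing S] (p : Fin 8 → Fin 2 → S) (i j : Fin 8) : S :=
  (p i 0 - p j 0) ^ 2 + (p i 1 - p j 1) ^ 2

/-- Coefficients of the cyclic system. -/
def Ak {S : Type*} [CommRing S] (p : Fin 8 → Fin 2 → S) : Fin 6 → S :=
  ![br p 2 3 2 0, br p 3 4 3 1, br p 4 5 4 0, br p 5 6 5 1, br p 6 7 6 0, br p 7 2 7 1]

/-- Coefficients of the cyclic system. -/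
def Bk {S : Type*} [CommRing S] (p : Fin 8 → Fin 2 → S) : Fin 6 → S :=
  ![br p 2 3 3 1, br p 3 4 4 0, br p 4 5 5 1, br p 5 6 6 0, br p 6 7 7 1, br p 7 2 2 0]

/-- The obstruction to solving the cyclic system. -/
def cyc {S : Type*} [CommRing S] (p : Fin 8 → Fin 2 → S) : S :=
  br p 2 3 2 0 * br p 3 4 3 1 * br p 4 5 4 0 * br p 5 6 5 1 * br p 6 7 6 0 * br p 7 2 7 1 -
  br p 2 3 3 1 * br p 3 4 4 0 * br p 4 5 5 1 * br p 5 6 6 0 * br p 6 7 7 1 * br p 7 2 2 0

lemma br_map {S T : Type*} [CommRing S] [CommRing T] (φ : S →+* T) (p : Fin 8 → Fin 2 → S)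
    (i j v h : Fin 8) : φ (br p i j v h) = br (fun i j => φ (p i j)) i j v h := by
  simp [br]

lemma sd_map {S T : Type*} [CommRing S] [CommRing T] (φ : S →+* T) (p : Fin 8 → Fin 2 → S)
    (i j : Fin 8) : φ (sd p i j) = sd (fun i j => φ (p i j)) i j := by
  simp [sd]

lemma cyc_map {S T : Type*} [CommRing S] [CommRing T] (φ : S →+* T) (p : Fin 8 → Fin 2 → S) :
    φ (cyc p) = cyc (fun i j => φ (p i j)) := by
  simp only [cyc, map_sub, map_mul, br_map]

/-- An integral point where nothing vanishes. -/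
def pt : Fin 8 → Fin 2 → ℤ :=
  ![![0, 0], ![1, 0], ![2, 1], ![3, 5], ![-1, 4], ![-3, 2], ![-2, -5], ![4, -3]]

/-- Natural polynomial functions which do not vanish at `pt` do not vanish at generic points. -/
lemma gen_ne {p : Fin 8 → Fin 2 → ℝ}
    (hp : AlgebraicIndependent ℚ (fun x : Fin 8 × Fin 2 => p x.1 x.2))
    (f : (S : Type) → [CommRing S] → (Fin 8 → Fin 2 → S) → S)
    (hf : ∀ (S T : Type) [CommRing S] [CommRing T] (φ : S →+* T) (p : Fin 8 → Fin 2 → S),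
      φ (f S p) = f T (fun i j => φ (p i j))) (h0 : f ℤ pt ≠ 0) : f ℝ p ≠ 0 := by
  set g : MvPolynomial (Fin 8 × Fin 2) ℚ := f _ (fun i j => MvPolynomial.X (i, j)) with hg
  have h1 : MvPolynomial.aeval (fun x : Fin 8 × Fin 2 => p x.1 x.2) g = f ℝ p := by
    have := hf _ _ (MvPolynomial.aeval (fun x : Fin 8 × Fin 2 => p x.1 x.2) :
      MvPolynomial (Fin 8 × Fin 2) ℚ →ₐ[ℚ] ℝ).toRingHom (fun i j => MvPolynomial.X (i, j))
    simp only [AlgHom.toRingHom_eq_coe, RingHom.coe_coe, MvPolynomial.aeval_X] at this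
    rw [hg, this]
  intro h2
  rw [h2] at h1
  have h3 : g = 0 := (algebraicIndependent_iff.1 hp) g h1
  have h4 := hf _ _ (MvPolynomial.eval (fun x : Fin 8 × Fin 2 => ((pt x.1 x.2 : ℤ) : ℚ)))
    (fun i j => MvPolynomial.X (i, j))
  rw [← hg, h3, map_zero] at h4
  simp only [MvPolynomial.eval_X] at h4
  have h5 := hf _ _ (Int.castRingHom ℚ) pt
  simp only [eq_intCast] at h5
  rw [← h5] at h4
  exact h0 (by exact_mod_cast h4.symm)

section generic
variable {p : Fin 8 → Fin 2 → ℝ}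
  (hp : AlgebraicIndependent ℚ (fun x : Fin 8 × Fin 2 => p x.1 x.2))

include hp

lemma gen_br {i j v h : Fin 8} (h0 : br pt i j v h ≠ 0) : br p i j v h ≠ 0 :=
  gen_ne hp (fun _ _ p => br p i j v h) (fun _ _ _ _ φ p => br_map φ p i j v h) h0

lemma gen_sd {i j : Fin 8} (h0 : sd pt i j ≠ 0) : sd p i j ≠ 0 :=
  gen_ne hp (fun _ _ p => sd p i j) (fun _ _ _ _ φ p => sd_map φ p i j) h0

lemma gen_sd' {i j : Fin 8} (h0 : sd pt i j - sd pt 0 1 ≠ 0) : sd p i j ≠ sd p 0 1 :=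
  sub_ne_zero.1 (gen_ne hp (fun S _ p => sd p i j - sd p 0 1)
    (fun _ _ _ _ φ p => by simp only [map_sub, sd_map]) h0)

lemma gen_cyc : cyc p ≠ 0 :=
  gen_ne hp (fun S _ p => cyc p) (fun _ _ _ _ φ p => cyc_map φ p) (by decide)

lemma gen_B : ∀ k, Bk p k ≠ 0 := by
  intro k
  fin_cases k
  · exact gen_br hp (by decide)
  · exact gen_br hp (by decide)
  · exact gen_br hp (by decide)
  · exact gen_br hp (by decide)
  · exact gen_br hp (by decide)
  · exact gen_br hp (by decide)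

lemma gen_AB : Ak p 0 * Ak p 1 * Ak p 2 * Ak p 3 * Ak p 4 * Ak p 5 ≠
    Bk p 0 * Bk p 1 * Bk p 2 * Bk p 3 * Bk p 4 * Bk p 5 := by
  have := gen_cyc hp
  intro h
  apply this
  exact sub_eq_zero.2 h

end generic

end Pool.Agent.L7h85.Rig
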