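import Pool.Agent.L7h85.Rig.Geo

set_option autoImplicit false

/-! # Rigidity and derivations -/

open Polynomial Topology Filter

namespace Pool.Agent.L7h85.Rig

lemma perp {a b x y : ℝ} (h : a * x + b * y = 0) (hn : a ^ 2 + b ^ 2 ≠ 0) :
    ∃ α : ℝ, x = -α * b ∧ y = α * a := by
  refine ⟨(a * y - b * x) / (a ^ 2 + b ^ 2), ?_, ?_⟩
  · field_simp
    linear_combination a * h
  · field_simp
    linear_combination b * h

/-- First variation of the squared length. -/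
def dt {S : Type*} [CommRing S] (p u : Fin 8 → Fin 2 → S) (i j : Fin 8) : S :=
  (p i 0 - p j 0) * (u i 0 - u j 0) + (p i 1 - p j 1) * (u i 1 - u j 1)

lemma sum_dt {S : Type*} [CommRing S] (p u : Fin 8 → Fin 2 → S) (i j : Fin 8) :
    ∑ k, (p i k - p j k) * (u i k - u j k) = dt p u i j := by
  rw [Fin.sum_univ_two, dt]

section generic
variable {p : Fin 8 → Fin 2 → ℝ}
  (hp : AlgebraicIndependent ℚ (fun x : Fin 8 × Fin 2 => p x.1 x.2))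

include hp

/-- Infinitesimal rigidity at generic points. -/
theorem rigid (u : Fin 8 → Fin 2 → ℝ)
    (h : ∀ i j, Gr.Adj i j → ∑ k, (p i k - p j k) * (u i k - u j k) = 0) :
    ∀ i j, ∑ k, (p i k - p j k) * (u i k - u j k) = 0 := by
  simp only [sum_dt] at h ⊢
  have h1 : ∀ e ∈ Lst, dt p u e.1 e.2 = 0 := by
    refine (forall_adj_iff (d := dt p u) (d' := fun _ _ => 0) ?_ (fun _ _ => rfl)).1 h
    intro i j
    simp only [dt]
    ring
  rw [forall_Lst] at h1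
  obtain ⟨e0, f0, f1, f2, f3, f4, f5, c0, c1, c2, c3, c4, c5⟩ := h1
  have hN : sd p 0 1 ≠ 0 := gen_sd hp (by decide)
  obtain ⟨ω, hω1, hω2⟩ := perp (a := p 0 0 - p 1 0) (b := p 0 1 - p 1 1)
    (x := u 0 0 - u 1 0) (y := u 0 1 - u 1 1) e0 hN
  set X : Fin 8 → ℝ := fun i => u i 0 - u 0 0 + ω * (p i 1 - p 0 1) with hX
  set Y : Fin 8 → ℝ := fun i => u i 1 - u 0 1 - ω * (p i 0 - p 0 0) with hY
  have key : ∀ i j, dt p u i j = (p i 0 - p j 0) * (X i - X j) + (p i 1 - p j 1) * (Y i - Y j) := by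
    intro i j
    simp only [dt, hX, hY]
    ring
  have hX0 : X 0 = 0 := by simp only [hX]; ring
  have hY0 : Y 0 = 0 := by simp only [hY]; ring
  have hX1 : X 1 = 0 := by simp only [hX]; linear_combination -hω1
  have hY1 : Y 1 = 0 := by simp only [hY]; linear_combination -hω2
  have hub : ∀ h v : Fin 8, X h = 0 → Y h = 0 → sd p h v ≠ 0 → dt p u h v = 0 →
      ∃ α : ℝ, X v = -α * (p v 1 - p h 1) ∧ Y v = α * (p v 0 - p h 0) := by
    intro h v hXh hYh hs hd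
    rw [key, hXh, hYh] at hd
    apply perp
    · linear_combination hd
    · intro h0
      apply hs
      simp only [sd]
      linear_combination h0
  obtain ⟨α0, a0, b0⟩ := hub 0 2 hX0 hY0 (gen_sd hp (by decide)) f0
  obtain ⟨α1, a1, b1⟩ := hub 1 3 hX1 hY1 (gen_sd hp (by decide)) f1
  obtain ⟨α2, a2, b2⟩ := hub 0 4 hX0 hY0 (gen_sd hp (by decide)) f2
  obtain ⟨α3, a3, b3⟩ := hub 1 5 hX1 hY1 (gen_sd hp (by decide)) f3
  obtain ⟨α4, a4, b4⟩ := hub 0 6 hX0 hY0 (gen_sd hp (by decide)) f4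
  obtain ⟨α5, a5, b5⟩ := hub 1 7 hX1 hY1 (gen_sd hp (by decide)) f5
  simp only [key] at c0 c1 c2 c3 c4 c5
  have hα : (![α0, α1, α2, α3, α4, α5] : Fin 6 → ℝ) = 0 := by
    apply cyc_inj (gen_B hp) (gen_AB hp)
    intro k
    fin_cases k
    · change α0 * br p 2 3 2 0 = α1 * br p 2 3 3 1
      simp only [br]
      rw [a0, b0, a1, b1] at c0
      linear_combination c0
    · change α1 * br p 3 4 3 1 = α2 * br p 3 4 4 0
      simp only [br]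
      rw [a1, b1, a2, b2] at c1
      linear_combination c1
    · change α2 * br p 4 5 4 0 = α3 * br p 4 5 5 1
      simp only [br]
      rw [a2, b2, a3, b3] at c2
      linear_combination c2
    · change α3 * br p 5 6 5 1 = α4 * br p 5 6 6 0
      simp only [br]
      rw [a3, b3, a4, b4] at c3
      linear_combination c3
    · change α4 * br p 6 7 6 0 = α5 * br p 6 7 7 1
      simp only [br]
      rw [a4, b4, a5, b5] at c4
      linear_combination c4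
    · change α5 * br p 7 2 7 1 = α0 * br p 7 2 2 0
      simp only [br]
      rw [a5, b5, a0, b0] at c5
      linear_combination c5
  have z0 : α0 = 0 := congrFun hα 0
  have z1 : α1 = 0 := congrFun hα 1
  have z2 : α2 = 0 := congrFun hα 2
  have z3 : α3 = 0 := congrFun hα 3
  have z4 : α4 = 0 := congrFun hα 4
  have z5 : α5 = 0 := congrFun hα 5
  have hXY : ∀ i, X i = 0 ∧ Y i = 0 := by
    intro i
    fin_cases i
    · exact ⟨hX0, hY0⟩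
    · exact ⟨hX1, hY1⟩
    · exact ⟨by rw [show X ⟨2, by norm_num⟩ = X 2 from rfl, a0, z0]; ring,
        by rw [show Y ⟨2, by norm_num⟩ = Y 2 from rfl, b0, z0]; ring⟩
    · exact ⟨by rw [show X ⟨3, by norm_num⟩ = X 3 from rfl, a1, z1]; ring,
        by rw [show Y ⟨3, by norm_num⟩ = Y 3 from rfl, b1, z1]; ring⟩
    · exact ⟨by rw [show X ⟨4, by norm_num⟩ = X 4 from rfl, a2, z2]; ring,
        by rw [show Y ⟨4, by norm_num⟩ = Y 4 from rfl, b2, z2]; ring⟩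
    · exact ⟨by rw [show X ⟨5, by norm_num⟩ = X 5 from rfl, a3, z3]; ring,
        by rw [show Y ⟨5, by norm_num⟩ = Y 5 from rfl, b3, z3]; ring⟩
    · exact ⟨by rw [show X ⟨6, by norm_num⟩ = X 6 from rfl, a4, z4]; ring,
        by rw [show Y ⟨6, by norm_num⟩ = Y 6 from rfl, b4, z4]; ring⟩
    · exact ⟨by rw [show X ⟨7, by norm_num⟩ = X 7 from rfl, a5, z5]; ring,
        by rw [show Y ⟨7, by norm_num⟩ = Y 7 from rfl, b5, z5]; ring⟩
  intro i j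
  rw [key, (hXY i).1, (hXY i).2, (hXY j).1, (hXY j).2]
  ring

/-- Motions fixing the hub distances with prescribed change of the cycle. -/
lemma exists_m (c : Fin 6 → ℝ) : ∃ m : Fin 8 → Fin 2 → ℝ,
    dt p m 0 1 = 0 ∧ dt p m 0 2 = 0 ∧ dt p m 1 3 = 0 ∧ dt p m 0 4 = 0 ∧ dt p m 1 5 = 0 ∧
    dt p m 0 6 = 0 ∧ dt p m 1 7 = 0 ∧ dt p m 2 3 = c 0 ∧ dt p m 3 4 = c 1 ∧ dt p m 4 5 = c 2 ∧
    dt p m 5 6 = c 3 ∧ dt p m 6 7 = c 4 ∧ dt p m 7 2 = c 5 := by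
  obtain ⟨α, hα⟩ := cyc_surj (gen_B hp) (gen_AB hp) c
  have h0 := hα 0
  have h1 := hα 1
  have h2 := hα 2
  have h3 := hα 3
  have h4 := hα 4
  have h5 := hα 5
  change α 0 * br p 2 3 2 0 - α 1 * br p 2 3 3 1 = c 0 at h0
  change α 1 * br p 3 4 3 1 - α 2 * br p 3 4 4 0 = c 1 at h1
  change α 2 * br p 4 5 4 0 - α 3 * br p 4 5 5 1 = c 2 at h2
  change α 3 * br p 5 6 5 1 - α 4 * br p 5 6 6 0 = c 3 at h3
  change α 4 * br p 6 7 6 0 - α 5 * br p 6 7 7 1 = c 4 at h4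
  change α 5 * br p 7 2 7 1 - α 0 * br p 7 2 2 0 = c 5 at h5
  simp only [br] at h0 h1 h2 h3 h4 h5
  refine ⟨![![0, 0], ![0, 0],
    ![-α 0 * (p 2 1 - p 0 1), α 0 * (p 2 0 - p 0 0)],
    ![-α 1 * (p 3 1 - p 1 1), α 1 * (p 3 0 - p 1 0)],
    ![-α 2 * (p 4 1 - p 0 1), α 2 * (p 4 0 - p 0 0)],
    ![-α 3 * (p 5 1 - p 1 1), α 3 * (p 5 0 - p 1 0)],
    ![-α 4 * (p 6 1 - p 0 1), α 4 * (p 6 0 - p 0 0)],
    ![-α 5 * (p 7 1 - p 1 1), α 5 * (p 7 0 - p 1 0)]], ?_⟩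
  refine ⟨?_, ?_, ?_, ?_, ?_, ?_, ?_, ?_, ?_, ?_, ?_, ?_, ?_⟩
  · simp [dt]
  · simp [dt]; ring
  · simp [dt]; ring
  · simp [dt]; ring
  · simp [dt]; ring
  · simp [dt]; ring
  · simp [dt]; ring
  · simp [dt]; linear_combination h0
  · simp [dt]; linear_combination h1
  · simp [dt]; linear_combination h2
  · simp [dt]; linear_combination h3
  · simp [dt]; linear_combination h4
  · simp [dt]; linear_combination h5

/-- Derivations moving the cycle lengths independently. -/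
lemma exists_D (c : Fin 6 → ℝ) : ∃ D : Derivation ℚ ℂ ℂ,
    D (sd p 0 1 : ℝ) = 0 ∧ D (sd p 0 2 : ℝ) = 0 ∧ D (sd p 1 3 : ℝ) = 0 ∧ D (sd p 0 4 : ℝ) = 0 ∧
    D (sd p 1 5 : ℝ) = 0 ∧ D (sd p 0 6 : ℝ) = 0 ∧ D (sd p 1 7 : ℝ) = 0 ∧
    D (sd p 2 3 : ℝ) = 2 * c 0 ∧ D (sd p 3 4 : ℝ) = 2 * c 1 ∧ D (sd p 4 5 : ℝ) = 2 * c 2 ∧
    D (sd p 5 6 : ℝ) = 2 * c 3 ∧ D (sd p 6 7 : ℝ) = 2 * c 4 ∧ D (sd p 7 2 : ℝ) = 2 * c 5 := by
  obtain ⟨m, hm⟩ := exists_m hp c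
  have hpc : AlgebraicIndependent ℚ (fun x : Fin 8 × Fin 2 => ((p x.1 x.2 : ℝ) : ℂ)) := by
    have := hp.map' (f := (IsScalarTower.toAlgHom ℚ ℝ ℂ)) Complex.ofReal_injective
    exact this
  obtain ⟨D, hD⟩ := Pool.Agent.H135R2.VS.exists_der hpc
    (fun x : Fin 8 × Fin 2 => ((m x.1 x.2 : ℝ) : ℂ))
  have hD' : ∀ i k, D ((p i k : ℝ) : ℂ) = ((m i k : ℝ) : ℂ) := fun i k => hD (i, k)
  have key : ∀ i j, D ((sd p i j : ℝ) : ℂ) = 2 * ((dt p m i j : ℝ) : ℂ) := by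
    intro i j
    simp only [sd, dt]
    push_cast
    rw [sq, sq, map_add, Derivation.leibniz, Derivation.leibniz, map_sub, map_sub, hD', hD', hD', hD']
    simp only [smul_eq_mul]
    ring
  obtain ⟨e0, f0, f1, f2, f3, f4, f5, c0, c1, c2, c3, c4, c5⟩ := hm
  refine ⟨D, ?_, ?_, ?_, ?_, ?_, ?_, ?_, ?_, ?_, ?_, ?_, ?_, ?_⟩ <;> rw [key]
  · rw [e0]; simp
  · rw [f0]; simp
  · rw [f1]; simp
  · rw [f2]; simp
  · rw [f3]; simp
  · rw [f4]; simp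
  · rw [f5]; simp
  · rw [c0]
  · rw [c1]
  · rw [c2]
  · rw [c3]
  · rw [c4]
  · rw [c5]

end generic

/-! ### The parameters -/

/-- Vertices of the cycle. -/
def vt : ℕ → Fin 8
  | 0 => 2 | 1 => 3 | 2 => 4 | 3 => 5 | 4 => 6 | 5 => 7 | _ => 2

/-- Hubs. -/
def hub : ℕ → Fin 8
  | 0 => 0 | 1 => 1 | 2 => 0 | 3 => 1 | 4 => 0 | 5 => 1 | _ => 0

/-- Parameters of a configuration. -/
noncomputable def par (p : Fin 8 → Fin 2 → ℝ) : Par ℝ :=
  ⟨Real.sqrt (sd p 0 1), fun k => Real.sqrt (sd p (hub k) (vt k)), fun k => sd p (vt k) (vt (k + 1))⟩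

lemma sd_nonneg (p : Fin 8 → Fin 2 → ℝ) (i j : Fin 8) : 0 ≤ sd p i j :=
  add_nonneg (sq_nonneg _) (sq_nonneg _)

lemma sqrt_sd_sq (p : Fin 8 → Fin 2 → ℝ) (i j : Fin 8) :
    ((Real.sqrt (sd p i j) : ℝ) : ℂ) ^ 2 = ((sd p i j : ℝ) : ℂ) := by
  rw [← Complex.ofReal_pow, Real.sq_sqrt (sd_nonneg p i j)]

lemma par_ND {p : Fin 8 → Fin 2 → ℝ}
    (hp : AlgebraicIndependent ℚ (fun x : Fin 8 × Fin 2 => p x.1 x.2)) : (par p).cx.ND := by
  have hpos : ∀ j ≤ 6, sd p (hub j) (vt j) ≠ 0 := by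
    intro j hj
    interval_cases j <;> exact gen_sd hp (by decide)
  have hne : ∀ j ≤ 6, sd p (hub j) (vt j) ≠ sd p 0 1 := by
    intro j hj
    interval_cases j <;> exact gen_sd' hp (by decide)
  have hN : sd p 0 1 ≠ 0 := gen_sd hp (by decide)
  refine ⟨?_, ?_, ?_, ?_⟩
  · intro h
    apply hN
    have h1 : ((Real.sqrt (sd p 0 1) : ℝ) : ℂ) = 0 := h
    have h2 := sqrt_sd_sq p 0 1
    rw [h1] at h2
    have h3 : ((sd p 0 1 : ℝ) : ℂ) = 0 := by rw [← h2]; ring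
    exact_mod_cast h3
  · intro j hj h
    apply hpos j hj
    have h1 : ((Real.sqrt (sd p (hub j) (vt j)) : ℝ) : ℂ) = 0 := h
    have h2 := sqrt_sd_sq p (hub j) (vt j)
    rw [h1] at h2
    have h3 : ((sd p (hub j) (vt j) : ℝ) : ℂ) = 0 := by rw [← h2]; ring
    exact_mod_cast h3
  · intro j hj h
    apply hne j hj
    have h1 : ((Real.sqrt (sd p (hub j) (vt j)) : ℝ) : ℂ) ^ 2 =
      ((Real.sqrt (sd p 0 1) : ℝ) : ℂ) ^ 2 := h
    rw [sqrt_sd_sq, sqrt_sd_sq] at h1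
    exact_mod_cast h1
  · rfl

lemma exists_Gn {p : Fin 8 → Fin 2 → ℝ}
    (hp : AlgebraicIndependent ℚ (fun x : Fin 8 × Fin 2 => p x.1 x.2)) :
    ∃ D : ℕ → Derivation ℚ ℂ ℂ, (par p).cx.Gn D := by
  have hex : ∀ j : ℕ, ∃ D : Derivation ℚ ℂ ℂ,
      D (sd p 0 1 : ℝ) = 0 ∧ D (sd p 0 2 : ℝ) = 0 ∧ D (sd p 1 3 : ℝ) = 0 ∧ D (sd p 0 4 : ℝ) = 0 ∧
      D (sd p 1 5 : ℝ) = 0 ∧ D (sd p 0 6 : ℝ) = 0 ∧ D (sd p 1 7 : ℝ) = 0 ∧
      D (sd p 2 3 : ℝ) = (if 0 = j then 1 else 0) ∧ D (sd p 3 4 : ℝ) = (if 1 = j then 1 else 0) ∧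
      D (sd p 4 5 : ℝ) = (if 2 = j then 1 else 0) ∧ D (sd p 5 6 : ℝ) = (if 3 = j then 1 else 0) ∧
      D (sd p 6 7 : ℝ) = (if 4 = j then 1 else 0) ∧ D (sd p 7 2 : ℝ) = (if 5 = j then 1 else 0) := by
    intro j
    obtain ⟨D, e0, f0, f1, f2, f3, f4, f5, c0, c1, c2, c3, c4, c5⟩ :=
      exists_D hp (fun k => if (k : ℕ) = j then 1 / 2 else 0)
    have h2 : ∀ q : Prop, [Decidable q] → (2 : ℂ) * (((if q then 1 / 2 else 0 : ℝ)) : ℂ) =
        if q then 1 else 0 := by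
      intro q _
      split_ifs <;> simp
    refine ⟨D, e0, f0, f1, f2, f3, f4, f5, ?_, ?_, ?_, ?_, ?_, ?_⟩
    · rw [c0, ← h2]; rfl
    · rw [c1, ← h2]; rfl
    · rw [c2, ← h2]; rfl
    · rw [c3, ← h2]; rfl
    · rw [c4, ← h2]; rfl
    · rw [c5, ← h2]; rfl
  choose D hD using hex
  refine ⟨D, ?_, ?_, ?_⟩
  · intro j _
    change (((Real.sqrt (sd p 0 1) : ℝ) : ℂ)) ∈ kerD (D j)
    apply kerD_sq
    rw [sqrt_sd_sq]
    exact (hD j).1
  · intro j _ i hi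
    change (((Real.sqrt (sd p (hub i) (vt i)) : ℝ) : ℂ)) ∈ kerD (D j)
    apply kerD_sq
    rw [sqrt_sd_sq, mem_kerD]
    obtain ⟨e0, f0, f1, f2, f3, f4, f5, -⟩ := hD j
    interval_cases i
    · exact f0
    · exact f1
    · exact f2
    · exact f3
    · exact f4
    · exact f5
    · exact f0
  · intro j _ i hi
    change D j (((sd p (vt i) (vt (i + 1)) : ℝ) : ℂ)) = _
    obtain ⟨-, -, -, -, -, -, -, c0, c1, c2, c3, c4, c5⟩ := hD j
    interval_cases i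
    · exact c0
    · exact c1
    · exact c2
    · exact c3
    · exact c4
    · exact c5

end Pool.Agent.L7h85.Rig
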