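import Pool.Agent.L7h85.Rig.Gen

set_option autoImplicit false

/-! # Orders of vanishing at the degenerate points -/

open Polynomial Topology Filter

namespace Pool.Agent.L7h85.Rig

section lim
variable {ι : Type*} {l : Filter ι} {δ : ι → ℂ} (hδ : Tendsto δ l (𝓝 0))
  (hδ0 : ∀ᶠ i in l, δ i ≠ 0)

include hδ hδ0 in
lemma tendsto_of_div {f : ι → ℂ} {f0 c : ℂ} (h : Tendsto (fun i => (f i - f0) / δ i) l (𝓝 c)) :
    Tendsto f l (𝓝 f0) := by
  have h1 : Tendsto (fun i => (f i - f0) / δ i * δ i + f0) l (𝓝 (c * 0 + f0)) :=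
    (h.mul hδ).add_const f0
  rw [mul_zero, zero_add] at h1
  refine h1.congr' ?_
  filter_upwards [hδ0] with i hi
  field_simp
  ring

include hδ hδ0 in
lemma tendsto_of_div0 {f : ι → ℂ} {c : ℂ} (h : Tendsto (fun i => f i / δ i) l (𝓝 c)) :
    Tendsto f l (𝓝 0) := by
  apply tendsto_of_div hδ hδ0 (c := c)
  simpa using h

include hδ hδ0 in
/-- Limits of the roots of a quadratic equation. -/
lemma quad_lim {A B C : ι → ℂ} {A0 B0 C0 : ℂ} (hA : Tendsto A l (𝓝 A0)) (hA0 : A0 ≠ 0)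
    (hB : Tendsto B l (𝓝 B0)) (hB0 : B0 ≠ 0) (hC : Tendsto (fun i => C i / δ i) l (𝓝 C0)) :
    ∃ y₁ y₂ : ι → ℂ, (∀ᶠ i in l, A i * (y₁ i + y₂ i) = - B i ∧ A i * (y₁ i * y₂ i) = C i) ∧
      Tendsto (fun i => y₁ i / δ i) l (𝓝 (-C0 / B0)) ∧ Tendsto y₂ l (𝓝 (-B0 / A0)) := by
  have hex : ∀ i, ∃ y : ℂ × ℂ, A i ≠ 0 →
      (A i * (y.1 + y.2) = - B i ∧ A i * (y.1 * y.2) = C i ∧ ‖y.1‖ ≤ ‖y.2‖) := by
    intro i
    by_cases h : A i = 0
    · exact ⟨0, fun h' => absurd h h'⟩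
    · obtain ⟨y₁, y₂, h1, h2, h3⟩ := exists_roots (A i) (B i) (C i) h
      exact ⟨(y₁, y₂), fun _ => ⟨h1, h2, h3⟩⟩
  choose y hy using hex
  have hAe : ∀ᶠ i in l, A i ≠ 0 := hA.eventually_ne hA0
  have hC' : Tendsto C l (𝓝 0) := tendsto_of_div0 hδ hδ0 hC
  have hp : Tendsto (fun i => C i / A i) l (𝓝 0) := by
    have := hC'.div hA hA0
    rw [zero_div] at this
    exact this
  have hy1 : Tendsto (fun i => (y i).1) l (𝓝 0) := by
    rw [tendsto_zero_iff_norm_tendsto_zero]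
    have h1 : Tendsto (fun i => Real.sqrt ‖C i / A i‖) l (𝓝 0) := by
      have := (Real.continuous_sqrt.tendsto 0).comp (tendsto_zero_iff_norm_tendsto_zero.1 hp)
      rw [Real.sqrt_zero] at this
      exact this
    refine tendsto_of_tendsto_of_tendsto_of_le_of_le' tendsto_const_nhds h1 ?_ ?_
    · exact Eventually.of_forall fun i => norm_nonneg _
    · filter_upwards [hAe] with i hi
      obtain ⟨-, h2, h3⟩ := hy i hi
      apply Real.le_sqrt_of_sq_le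
      rw [← h2]
      have : A i * ((y i).1 * (y i).2) / A i = (y i).1 * (y i).2 := by field_simp
      rw [this, norm_mul, sq]
      exact mul_le_mul_of_nonneg_left h3 (norm_nonneg _)
  have hy2 : Tendsto (fun i => (y i).2) l (𝓝 (-B0 / A0)) := by
    have h1 : Tendsto (fun i => - B i / A i - (y i).1) l (𝓝 (-B0 / A0 - 0)) :=
      ((hB.neg).div hA hA0).sub hy1
    rw [sub_zero] at h1
    refine h1.congr' ?_
    filter_upwards [hAe] with i hi
    obtain ⟨h2, -, -⟩ := hy i hi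
    field_simp
    rw [← h2]
    ring
  refine ⟨fun i => (y i).1, fun i => (y i).2, ?_, ?_, hy2⟩
  · filter_upwards [hAe] with i hi
    exact ⟨(hy i hi).1, (hy i hi).2.1⟩
  · have hB0' : -B0 / A0 ≠ 0 := div_ne_zero (neg_ne_zero.2 hB0) hA0
    have h1 : Tendsto (fun i => (C i / δ i) / (A i * (y i).2)) l (𝓝 (C0 / (A0 * (-B0 / A0)))) :=
      hC.div (hA.mul hy2) (mul_ne_zero hA0 hB0')
    have h2 : C0 / (A0 * (-B0 / A0)) = -C0 / B0 := by field_simp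
    rw [h2] at h1
    refine h1.congr' ?_
    filter_upwards [hAe, hδ0, hy2.eventually_ne hB0'] with i hi hi2 hi3
    obtain ⟨-, h2, -⟩ := hy i hi
    rw [← h2]
    field_simp

end lim

section step
variable {ι : Type*} {l : Filter ι} {δ : ι → ℂ} (hδ : Tendsto δ l (𝓝 0))
  (hδ0 : ∀ᶠ i in l, δ i ≠ 0) {P : Par ℂ} (hP : P.ND)

include hδ hδ0 hP in
/-- The two roots over a value tending to zero. -/
lemma stepZ {k : ℕ} (hk : k ≤ 5) {z : ι → ℂ} {c : ℂ} (hz : Tendsto (fun i => z i / δ i) l (𝓝 c)) :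
    ∃ y₁ y₂ : ι → ℂ,
      (∀ᶠ i in l, cA P k (z i) * (y₁ i + y₂ i) = - cB P k (z i) ∧
        cA P k (z i) * (y₁ i * y₂ i) = cC P k (z i)) ∧
      Tendsto (fun i => cA P k (z i)) l (𝓝 (P.r k * P.r (k + 1))) ∧
      Tendsto (fun i => y₁ i / δ i) l (𝓝 (-(P.r k / P.r (k + 1)) * c)) ∧
      Tendsto (fun i => (y₂ i - P.ρ / P.r k) / δ i) l
        (𝓝 (c * (P.l k - P.r (k + 1) ^ 2) / (P.r k * P.r (k + 1)))) := by
  have hz0 := tendsto_of_div0 hδ hδ0 hz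
  have hr := hP.r0 k (by omega)
  have hr' := hP.r0 (k + 1) (by omega)
  have hρ := hP.ρ0
  have hA : Tendsto (fun i => cA P k (z i)) l (𝓝 (P.r k * P.r (k + 1))) := by
    have : Tendsto (fun i => P.r k * (P.r (k + 1) - P.ρ * z i)) l
        (𝓝 (P.r k * (P.r (k + 1) - P.ρ * 0))) :=
      tendsto_const_nhds.mul (tendsto_const_nhds.sub (tendsto_const_nhds.mul hz0))
    simpa [cA] using this
  have hB : Tendsto (fun i => cB P k (z i)) l (𝓝 (-(P.ρ * P.r (k + 1)))) := by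
    have hcont : Continuous fun z => cB P k z := by unfold cB; fun_prop
    have := (hcont.tendsto 0).comp hz0
    have h2 : cB P k 0 = -(P.ρ * P.r (k + 1)) := by unfold cB; ring
    rw [h2] at this
    exact this
  have hC : Tendsto (fun i => cC P k (z i) / δ i) l (𝓝 (-(P.r k * P.ρ * c))) := by
    have : Tendsto (fun i => P.r k * (z i / δ i) * (P.r (k + 1) * z i - P.ρ)) l
        (𝓝 (P.r k * c * (P.r (k + 1) * 0 - P.ρ))) :=
      (tendsto_const_nhds.mul hz).mul ((tendsto_const_nhds.mul hz0).sub tendsto_const_nhds)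
    have h2 : P.r k * c * (P.r (k + 1) * 0 - P.ρ) = -(P.r k * P.ρ * c) := by ring
    rw [h2] at this
    refine this.congr fun i => ?_
    unfold cC
    ring
  obtain ⟨y₁, y₂, h1, h2, h3⟩ := quad_lim hδ hδ0 hA (mul_ne_zero hr hr') hB
    (neg_ne_zero.2 (mul_ne_zero hρ hr')) hC
  have e1 : -(-(P.r k * P.ρ * c)) / (-(P.ρ * P.r (k + 1))) = -(P.r k / P.r (k + 1)) * c := by
    field_simp
  rw [e1] at h2
  refine ⟨y₁, y₂, h1, hA, h2, ?_⟩
  have h4 : Tendsto (fun i => -(z i / δ i) * (P.r k ^ 2 + P.r (k + 1) ^ 2 - P.l k -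
      P.ρ * P.r (k + 1) * z i) / cA P k (z i) - y₁ i / δ i) l
      (𝓝 (- c * (P.r k ^ 2 + P.r (k + 1) ^ 2 - P.l k - P.ρ * P.r (k + 1) * 0) /
        (P.r k * P.r (k + 1)) - (-(P.r k / P.r (k + 1)) * c))) := by
    refine Tendsto.sub (Tendsto.div ?_ hA (mul_ne_zero hr hr')) h2
    exact hz.neg.mul (tendsto_const_nhds.sub (tendsto_const_nhds.mul hz0))
  have e2 : - c * (P.r k ^ 2 + P.r (k + 1) ^ 2 - P.l k - P.ρ * P.r (k + 1) * 0) /
        (P.r k * P.r (k + 1)) - (-(P.r k / P.r (k + 1)) * c) =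
      c * (P.l k - P.r (k + 1) ^ 2) / (P.r k * P.r (k + 1)) := by
    field_simp
    ring
  rw [e2] at h4
  refine h4.congr' ?_
  filter_upwards [h1, hδ0, hA.eventually_ne (mul_ne_zero hr hr')] with i hi hi2 hi3
  have h5 : y₂ i = - cB P k (z i) / cA P k (z i) - y₁ i := by
    field_simp
    rw [← hi.1]
    ring
  have h7 : P.r k * cB P k (z i) = P.r k * (z i * (P.r k ^ 2 + P.r (k + 1) ^ 2 - P.l k -
      P.ρ * P.r (k + 1) * z i)) - cA P k (z i) * P.ρ := by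
    unfold cA cB; ring
  rw [h5]
  field_simp
  linear_combination h7

include hδ hδ0 hP in
/-- The two roots over a value tending to `ρ / r`. -/
lemma stepS {k : ℕ} (hk : k ≤ 5) (hl : P.l k ≠ P.r k ^ 2) {z : ι → ℂ} {c : ℂ}
    (hz : Tendsto (fun i => (z i - P.ρ / P.r (k + 1)) / δ i) l (𝓝 c)) :
    ∃ y₁ y₂ : ι → ℂ,
      (∀ᶠ i in l, cA P k (z i) * (y₁ i + y₂ i) = - cB P k (z i) ∧
        cA P k (z i) * (y₁ i * y₂ i) = cC P k (z i)) ∧
      Tendsto (fun i => cA P k (z i)) l (𝓝 (P.r k * (P.r (k + 1) ^ 2 - P.ρ ^ 2) / P.r (k + 1))) ∧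
      Tendsto (fun i => y₁ i / δ i) l (𝓝 (P.r k * P.r (k + 1) * c / (P.l k - P.r k ^ 2))) ∧
      Tendsto y₂ l (𝓝 ((P.l k - P.r k ^ 2) * P.ρ / (P.r k * (P.r (k + 1) ^ 2 - P.ρ ^ 2)))) := by
  have hz0 := tendsto_of_div hδ hδ0 hz
  have hr := hP.r0 k (by omega)
  have hr' := hP.r0 (k + 1) (by omega)
  have hρ := hP.ρ0
  have hd : P.r (k + 1) ^ 2 - P.ρ ^ 2 ≠ 0 := sub_ne_zero.2 (hP.rρ (k + 1) (by omega))
  have hl' : P.l k - P.r k ^ 2 ≠ 0 := sub_ne_zero.2 hl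
  have hA : Tendsto (fun i => cA P k (z i)) l
      (𝓝 (P.r k * (P.r (k + 1) ^ 2 - P.ρ ^ 2) / P.r (k + 1))) := by
    have hcont : Continuous fun z => cA P k z := by unfold cA; fun_prop
    have := (hcont.tendsto _).comp hz0
    have h2 : cA P k (P.ρ / P.r (k + 1)) = P.r k * (P.r (k + 1) ^ 2 - P.ρ ^ 2) / P.r (k + 1) := by
      unfold cA; field_simp
    rw [h2] at this
    exact this
  have hB : Tendsto (fun i => cB P k (z i)) l (𝓝 (-((P.l k - P.r k ^ 2) * P.ρ / P.r (k + 1)))) := by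
    have hcont : Continuous fun z => cB P k z := by unfold cB; fun_prop
    have := (hcont.tendsto _).comp hz0
    have h2 : cB P k (P.ρ / P.r (k + 1)) = -((P.l k - P.r k ^ 2) * P.ρ / P.r (k + 1)) := by
      unfold cB; field_simp; ring
    rw [h2] at this
    exact this
  have hC : Tendsto (fun i => cC P k (z i) / δ i) l (𝓝 (P.r k * P.ρ * c)) := by
    have : Tendsto (fun i => P.r k * z i * (P.r (k + 1) * ((z i - P.ρ / P.r (k + 1)) / δ i))) l
        (𝓝 (P.r k * (P.ρ / P.r (k + 1)) * (P.r (k + 1) * c))) :=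
      (tendsto_const_nhds.mul hz0).mul (tendsto_const_nhds.mul hz)
    have h2 : P.r k * (P.ρ / P.r (k + 1)) * (P.r (k + 1) * c) = P.r k * P.ρ * c := by field_simp
    rw [h2] at this
    refine this.congr fun i => ?_
    unfold cC
    field_simp
  obtain ⟨y₁, y₂, h1, h2, h3⟩ := quad_lim hδ hδ0 hA (div_ne_zero (mul_ne_zero hr hd) hr') hB
    (neg_ne_zero.2 (div_ne_zero (mul_ne_zero hl' hρ) hr')) hC
  have e1 : -(P.r k * P.ρ * c) / (-((P.l k - P.r k ^ 2) * P.ρ / P.r (k + 1))) =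
      P.r k * P.r (k + 1) * c / (P.l k - P.r k ^ 2) := by
    field_simp
  have e2 : -(-((P.l k - P.r k ^ 2) * P.ρ / P.r (k + 1))) /
      (P.r k * (P.r (k + 1) ^ 2 - P.ρ ^ 2) / P.r (k + 1)) =
      (P.l k - P.r k ^ 2) * P.ρ / (P.r k * (P.r (k + 1) ^ 2 - P.ρ ^ 2)) := by
    field_simp
  rw [e1] at h2
  rw [e2] at h3
  exact ⟨y₁, y₂, h1, hA, h2, h3⟩

/-- Orders multiply. -/
lemma combine {k : ℕ} {a z y₁ y₂ : ι → ℂ} {A0 L₁ L₂ : ℂ} {m n : ℕ}
    (h : ∀ᶠ i in l, cA P (k + 1) (z i) * (y₁ i + y₂ i) = - cB P (k + 1) (z i) ∧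
        cA P (k + 1) (z i) * (y₁ i * y₂ i) = cC P (k + 1) (z i))
    (hA : Tendsto (fun i => cA P (k + 1) (z i)) l (𝓝 A0)) (hA0 : A0 ≠ 0)
    (h1 : Tendsto (fun i => (F P k (a i)).eval (y₁ i) / δ i ^ m) l (𝓝 L₁)) (hL1 : L₁ ≠ 0)
    (h2 : Tendsto (fun i => (F P k (a i)).eval (y₂ i) / δ i ^ n) l (𝓝 L₂)) (hL2 : L₂ ≠ 0) :
    ∃ L : ℂ, L ≠ 0 ∧ Tendsto (fun i => (F P (k + 1) (a i)).eval (z i) / δ i ^ (m + n)) l (𝓝 L) := by
  refine ⟨A0 ^ 2 ^ (k + 1) * (L₁ * L₂), mul_ne_zero (pow_ne_zero _ hA0) (mul_ne_zero hL1 hL2), ?_⟩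
  have := (hA.pow (2 ^ (k + 1))).mul (h1.mul h2)
  refine this.congr' ?_
  filter_upwards [h, hA.eventually_ne hA0] with i hi hi2
  rw [F_succ_prod P k (a i) (z i) (y₁ i) (y₂ i) hi2 hi.1 hi.2, pow_add]
  ring

end step

end Pool.Agent.L7h85.Rig
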