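import Pool.Agent.L7h85.Rig.Loc

set_option autoImplicit false

/-! # Orders of vanishing at the degenerate points, II -/

open Polynomial Topology Filter

namespace Pool.Agent.L7h85.Rig

/-- The squared lengths of the cycle are free. -/
structure Par.Gn (P : Par ℂ) (D : ℕ → Derivation ℚ ℂ ℂ) : Prop where
  ρ : ∀ j ≤ 5, D j P.ρ = 0
  r : ∀ j ≤ 5, ∀ i ≤ 6, D j (P.r i) = 0
  l : ∀ j ≤ 5, ∀ i ≤ 5, D j (P.l i) = if i = j then 1 else 0

/-- The exponents. -/
def mm (s : ℕ) : ℕ → ℕ × ℕ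
  | 0 => (1, s)
  | k + 1 => ((mm s k).1 + (mm s k).2, (mm s k).1)

section main
variable {ι : Type*} {l : Filter ι} {δ : ι → ℂ} (hδ : Tendsto δ l (𝓝 0))
  (hδ0 : ∀ᶠ i in l, δ i ≠ 0) {P : Par ℂ} (hP : P.ND) {D : ℕ → Derivation ℚ ℂ ℂ} (hD : P.Gn D)

include hD in
lemma l_ne (k : ℕ) (hk : k ≤ 5) {c : ℂ} (hc : D k c = 0) : P.l k ≠ c := by
  intro h
  have h1 := hD.l k hk k hk
  rw [h, hc, if_pos rfl] at h1
  exact zero_ne_one h1

include hD in
lemma lr_ne (k : ℕ) (hk : k ≤ 5) {i : ℕ} (hi : i ≤ 6) : P.l k ≠ P.r i ^ 2 :=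
  l_ne hD k hk ((kerD (D k)).pow_mem (hD.r k hk i hi) 2)

include hδ hδ0 hP hD in
theorem loc_main (s : ℕ) (b : ℕ → ℂ) (hb : ∀ k ≤ 5, ∀ j ≤ 5, D j (b k) = 0)
    (hrec : ∀ k < 5, b k = -(P.r (k + 1) / P.r (k + 1 + 1)) * b (k + 1))
    {a : ι → ℂ} {as : ℂ} (ha : Tendsto a l (𝓝 as)) (has : ∀ j ≤ 5, D j as = 0)
    (hZ0 : ∀ (z : ι → ℂ) (c : ℂ), c ≠ 0 → D 0 c = 0 → c ≠ b 0 →
      Tendsto (fun i => z i / δ i) l (𝓝 c) →
      ∃ L : ℂ, L ≠ 0 ∧ Tendsto (fun i => E P 0 (a i) (z i) / δ i ^ 1) l (𝓝 L))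
    (hS0 : ∀ (z : ι → ℂ) (c : ℂ), c ≠ 0 → D 0 c = 0 →
      Tendsto (fun i => (z i - P.ρ / P.r 1) / δ i) l (𝓝 c) →
      ∃ L : ℂ, L ≠ 0 ∧ Tendsto (fun i => E P 0 (a i) (z i) / δ i ^ s) l (𝓝 L))
    (k : ℕ) (hk : k ≤ 5) :
    (∀ (z : ι → ℂ) (c : ℂ), c ≠ 0 → (∀ j ≤ k, D j c = 0) → c ≠ b k →
      Tendsto (fun i => z i / δ i) l (𝓝 c) →
      ∃ L : ℂ, L ≠ 0 ∧ Tendsto (fun i => (F P k (a i)).eval (z i) / δ i ^ (mm s k).1) l (𝓝 L)) ∧
    (∀ (z : ι → ℂ) (c : ℂ), c ≠ 0 → (∀ j ≤ k, D j c = 0) →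
      Tendsto (fun i => (z i - P.ρ / P.r (k + 1)) / δ i) l (𝓝 c) →
      ∃ L : ℂ, L ≠ 0 ∧ Tendsto (fun i => (F P k (a i)).eval (z i) / δ i ^ (mm s k).2) l (𝓝 L)) := by
  induction k with
  | zero =>
    simp only [F_zero_eval]
    exact ⟨fun z c h1 h2 h3 h4 => hZ0 z c h1 (h2 0 le_rfl) h3 h4,
      fun z c h1 h2 h3 => hS0 z c h1 (h2 0 le_rfl) h3⟩
  | succ k ih =>
    obtain ⟨ihZ, ihS⟩ := ih (by omega)
    have hr := hP.r0 (k + 1) (by omega)
    have hr' := hP.r0 (k + 1 + 1) (by omega)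
    have hρ := hP.ρ0
    have hd : P.r (k + 1 + 1) ^ 2 - P.ρ ^ 2 ≠ 0 := sub_ne_zero.2 (hP.rρ (k + 1 + 1) (by omega))
    constructor
    · intro z c hc0 hc hcb hz
      obtain ⟨y₁, y₂, h1, hA, h2, h3⟩ := stepZ hδ hδ0 hP hk hz
      obtain ⟨L₁, hL₁, hT₁⟩ := ihZ y₁ _ (mul_ne_zero (neg_ne_zero.2 (div_ne_zero hr hr')) hc0) (by
        intro j hj
        exact (kerD (D j)).mul_mem ((kerD (D j)).neg_mem
          ((kerD (D j)).div_mem (hD.r j (by omega) _ (by omega)) (hD.r j (by omega) _ (by omega))))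
          (hc j (by omega))) (by
        intro h
        rw [hrec k (by omega)] at h
        exact hcb (mul_left_cancel₀ (neg_ne_zero.2 (div_ne_zero hr hr')) h)) h2
      obtain ⟨L₂, hL₂, hT₂⟩ := ihS y₂ _ (div_ne_zero (mul_ne_zero hc0
          (sub_ne_zero.2 (lr_ne hD (k + 1) hk (by omega)))) (mul_ne_zero hr hr')) (by
        intro j hj
        refine (kerD (D j)).div_mem ((kerD (D j)).mul_mem (hc j (by omega))
          ((kerD (D j)).sub_mem ?_ ((kerD (D j)).pow_mem (hD.r j (by omega) _ (by omega)) 2)))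
          ((kerD (D j)).mul_mem (hD.r j (by omega) _ (by omega)) (hD.r j (by omega) _ (by omega)))
        have := hD.l j (by omega) (k + 1) (by omega)
        rw [if_neg (by omega)] at this
        exact this) h3
      exact combine h1 hA (mul_ne_zero hr hr') hT₁ hL₁ hT₂ hL₂
    · intro z c hc0 hc hz
      have hlr : P.l (k + 1) ≠ P.r (k + 1) ^ 2 := lr_ne hD (k + 1) hk (by omega)
      obtain ⟨y₁, y₂, h1, hA, h2, h3⟩ := stepS hδ hδ0 hP hk hlr hz
      have hlk : ∀ j ≤ k, D j (P.l (k + 1)) = 0 := by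
        intro j hj
        have := hD.l j (by omega) (k + 1) (by omega)
        rw [if_neg (by omega)] at this
        exact this
      obtain ⟨L₁, hL₁, hT₁⟩ := ihZ y₁ _ (div_ne_zero (mul_ne_zero (mul_ne_zero hr hr') hc0)
          (sub_ne_zero.2 hlr)) (by
        intro j hj
        exact (kerD (D j)).div_mem ((kerD (D j)).mul_mem ((kerD (D j)).mul_mem
          (hD.r j (by omega) _ (by omega)) (hD.r j (by omega) _ (by omega))) (hc j (by omega)))
          ((kerD (D j)).sub_mem (hlk j hj) ((kerD (D j)).pow_mem (hD.r j (by omega) _ (by omega)) 2)))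
        (by
        intro h
        have hc1 : P.r (k + 1) * P.r (k + 1 + 1) * c ≠ 0 := mul_ne_zero (mul_ne_zero hr hr') hc0
        have hb0 : b k ≠ 0 := by
          rw [← h]; exact div_ne_zero hc1 (sub_ne_zero.2 hlr)
        have h5 : P.l (k + 1) = P.r (k + 1) ^ 2 + P.r (k + 1) * P.r (k + 1 + 1) * c / b k := by
          rw [← h]
          have := sub_ne_zero.2 hlr
          field_simp
          ring
        refine l_ne hD (k + 1) hk ?_ h5
        exact (kerD (D (k + 1))).add_mem ((kerD (D (k + 1))).pow_mem (hD.r _ (by omega) _ (by omega)) 2)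
          ((kerD (D (k + 1))).div_mem ((kerD (D (k + 1))).mul_mem ((kerD (D (k + 1))).mul_mem
          (hD.r _ (by omega) _ (by omega)) (hD.r _ (by omega) _ (by omega))) (hc _ (by omega)))
          (hb k (by omega) (k + 1) (by omega)))) h2
      set g : ℂ := (P.l (k + 1) - P.r (k + 1) ^ 2) * P.ρ /
        (P.r (k + 1) * (P.r (k + 1 + 1) ^ 2 - P.ρ ^ 2)) with hg
      have hgK : g ∉ kerD (D (k + 1)) := by
        intro hgK
        have h5 : P.l (k + 1) = P.r (k + 1) ^ 2 + g *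
            (P.r (k + 1) * (P.r (k + 1 + 1) ^ 2 - P.ρ ^ 2)) / P.ρ := by
          rw [hg]; field_simp; ring
        refine l_ne hD (k + 1) hk ?_ h5
        have hrK := hD.r (k + 1) (by omega) (k + 1) (by omega)
        have hrK' := hD.r (k + 1) (by omega) (k + 1 + 1) (by omega)
        have hρK := hD.ρ (k + 1) (by omega)
        exact (kerD (D (k + 1))).add_mem ((kerD (D (k + 1))).pow_mem hrK 2)
          ((kerD (D (k + 1))).div_mem ((kerD (D (k + 1))).mul_mem hgK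
            ((kerD (D (k + 1))).mul_mem hrK ((kerD (D (k + 1))).sub_mem
              ((kerD (D (k + 1))).pow_mem hrK' 2) ((kerD (D (k + 1))).pow_mem hρK 2)))) hρK)
      have hne : (F P k as).eval g ≠ 0 := by
        refine NZ1 (K := kerD (D (k + 1))) (fun x => kerD_sq) hP (hD.ρ _ (by omega))
          (fun j hj => hD.r _ (by omega) j hj) (has _ (by omega)) k (by omega) ?_ hgK
        intro j hj
        have := hD.l (k + 1) (by omega) j (by omega)
        rw [if_neg (by omega)] at this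
        exact this
      have hT₂ : Tendsto (fun i => (F P k (a i)).eval (y₂ i) / δ i ^ 0) l (𝓝 ((F P k as).eval g)) := by
        have := ((continuous_F P k).tendsto (as, g)).comp (ha.prodMk_nhds h3)
        refine this.congr fun i => ?_
        simp
      have := combine h1 hA (div_ne_zero (mul_ne_zero hr hd) hr') hT₁ hL₁ hT₂ hne
      simpa [mm] using this

include hδ hδ0 hP hD in
theorem loc_special (b : ℕ → ℂ) (hbdef : ∀ k, b k = (-1) ^ (k + 1) * (P.r (k + 1) / P.r 0))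
    (hS : ∀ k ≤ 5, ∀ (z : ι → ℂ) (c : ℂ), c ≠ 0 → (∀ j ≤ k, D j c = 0) →
      Tendsto (fun i => (z i - P.ρ / P.r (k + 1)) / δ i) l (𝓝 c) →
      ∃ L : ℂ, L ≠ 0 ∧ Tendsto (fun i => (F P k (δ i)).eval (z i) / δ i ^ (mm 1 k).2) l (𝓝 L))
    (k : ℕ) (hk : k ≤ 5) :
    ∀ (z : ι → ℂ) (e : ℂ), (∀ j ≤ k, D j e = 0) →
      Tendsto (fun i => z i / δ i) l (𝓝 (b k)) →
      Tendsto (fun i => P.r (k + 1) / z i - (-1) ^ (k + 1) * (P.r 0 / δ i)) l (𝓝 e) →
      ∃ L : ℂ, L ≠ 0 ∧ Tendsto (fun i => (F P k (δ i)).eval (z i) / δ i ^ ((mm 1 k).1 + 1)) l (𝓝 L) := by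
  have hr0 := hP.r0 0 (by omega)
  have hρ := hP.ρ0
  have hb0 : ∀ k ≤ 5, b k ≠ 0 := by
    intro k hk
    rw [hbdef]
    exact mul_ne_zero (pow_ne_zero _ (by norm_num)) (div_ne_zero (hP.r0 _ (by omega)) hr0)
  have hbD : ∀ k ≤ 5, ∀ j ≤ 5, D j (b k) = 0 := by
    intro k hk j hj
    rw [hbdef]
    refine (kerD (D j)).mul_mem ((kerD (D j)).pow_mem ((kerD (D j)).neg_mem (kerD (D j)).one_mem) _)
      ((kerD (D j)).div_mem (hD.r j hj _ (by omega)) (hD.r j hj _ (by omega)))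
  induction k with
  | zero =>
    intro z e he hz1 hz2
    have hz := tendsto_of_div0 hδ hδ0 hz1
    have hr1 := hP.r0 1 (by omega)
    refine ⟨b 0 * ((P.r 0 * 0 + P.r 1 * 0 - P.ρ) * (e - P.ρ) - P.l 0), ?_, ?_⟩
    · refine mul_ne_zero (hb0 0 (by omega)) (sub_ne_zero.2 fun h => ?_)
      refine l_ne hD 0 (by omega) ?_ h.symm
      have hρ0 : P.ρ ∈ kerD (D 0) := hD.ρ 0 (by omega)
      have hr00 : P.r 0 ∈ kerD (D 0) := hD.r 0 (by omega) 0 (by omega)
      have hr01 : P.r 1 ∈ kerD (D 0) := hD.r 0 (by omega) 1 (by omega)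
      have he0 : e ∈ kerD (D 0) := he 0 le_rfl
      exact (kerD (D 0)).mul_mem ((kerD (D 0)).sub_mem ((kerD (D 0)).add_mem
        ((kerD (D 0)).mul_mem hr00 (kerD (D 0)).zero_mem) ((kerD (D 0)).mul_mem hr01
          (kerD (D 0)).zero_mem)) hρ0) ((kerD (D 0)).sub_mem he0 hρ0)
    · have h1 : Tendsto (fun i => (z i / δ i) * ((P.r 0 * δ i + P.r 1 * z i - P.ρ) *
          ((P.r (0 + 1) / z i - (-1) ^ (0 + 1) * (P.r 0 / δ i)) - P.ρ) - P.l 0)) l
          (𝓝 (b 0 * ((P.r 0 * 0 + P.r 1 * 0 - P.ρ) * (e - P.ρ) - P.l 0))) := by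
        refine hz1.mul (Tendsto.sub_const (Tendsto.mul ?_ (hz2.sub_const _)) _)
        exact ((tendsto_const_nhds.mul hδ).add (tendsto_const_nhds.mul hz)).sub_const _
      refine h1.congr' ?_
      have hz0 : ∀ᶠ i in l, z i ≠ 0 := by
        filter_upwards [hz1.eventually_ne (hb0 0 (by omega))] with i hi hi2
        rw [hi2, zero_div] at hi
        exact hi rfl
      filter_upwards [hδ0, hz0] with i hi hi2
      rw [F_zero_eval]
      simp only [mm, E, zero_add, pow_one, show 1 + 1 = 2 from rfl]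
      field_simp
      ring
  | succ k ih =>
    intro z e he hz1 hz2
    have ih := ih (by omega)
    have hr := hP.r0 (k + 1) (by omega)
    have hr' := hP.r0 (k + 1 + 1) (by omega)
    obtain ⟨y₁, y₂, h1, hA, h2, h3⟩ := stepZ hδ hδ0 hP hk hz1
    have hlk : ∀ j ≤ k, D j (P.l (k + 1)) = 0 := by
      intro j hj
      have := hD.l j (by omega) (k + 1) (by omega)
      rw [if_neg (by omega)] at this
      exact this
    have e1 : -(P.r (k + 1) / P.r (k + 1 + 1)) * b (k + 1) = b k := by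
      rw [hbdef, hbdef, pow_succ _ (k + 1)]
      field_simp
    rw [e1] at h2
    have hz := tendsto_of_div0 hδ hδ0 hz1
    have hy := tendsto_of_div0 hδ hδ0 h2
    have hz0 : ∀ᶠ i in l, z i ≠ 0 := by
      filter_upwards [hz1.eventually_ne (hb0 (k + 1) (by omega))] with i hi hi2
      rw [hi2, zero_div] at hi
      exact hi rfl
    have hy0 : ∀ᶠ i in l, y₁ i ≠ 0 := by
      filter_upwards [h2.eventually_ne (hb0 k (by omega))] with i hi hi2
      rw [hi2, zero_div] at hi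
      exact hi rfl
    -- the second order term
    have hw : Tendsto (fun i => P.r (k + 1) * y₁ i + P.r (k + 1 + 1) * z i - P.ρ) l
        (𝓝 (P.r (k + 1) * 0 + P.r (k + 1 + 1) * 0 - P.ρ)) :=
      ((tendsto_const_nhds.mul hy).add (tendsto_const_nhds.mul hz)).sub_const _
    have hw0 : P.r (k + 1) * 0 + P.r (k + 1 + 1) * 0 - P.ρ ≠ 0 := by
      rw [mul_zero, mul_zero, zero_add, zero_sub]; exact neg_ne_zero.2 hρ
    have h4 : Tendsto (fun i => P.ρ - (P.r (k + 1 + 1) / z i - (-1) ^ (k + 1 + 1) * (P.r 0 / δ i)) +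
        P.l (k + 1) / (P.r (k + 1) * y₁ i + P.r (k + 1 + 1) * z i - P.ρ)) l
        (𝓝 (P.ρ - e + P.l (k + 1) / (P.r (k + 1) * 0 + P.r (k + 1 + 1) * 0 - P.ρ))) :=
      (tendsto_const_nhds.sub hz2).add (tendsto_const_nhds.div hw hw0)
    have h5 : Tendsto (fun i => P.r (k + 1) / y₁ i - (-1) ^ (k + 1) * (P.r 0 / δ i)) l
        (𝓝 (P.ρ - e + P.l (k + 1) / (P.r (k + 1) * 0 + P.r (k + 1 + 1) * 0 - P.ρ))) := by
      refine h4.congr' ?_
      filter_upwards [hδ0, hz0, hy0, hw.eventually_ne hw0, h1] with i hi hi2 hi3 hi4 hi5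
      have hE := (E_of_roots hi5.1 hi5.2).1
      unfold E at hE
      have h6 : P.l (k + 1) / (P.r (k + 1) * y₁ i + P.r (k + 1 + 1) * z i - P.ρ) =
          P.r (k + 1) / y₁ i + P.r (k + 1 + 1) / z i - P.ρ := by
        rw [div_eq_iff hi4]
        field_simp
        linear_combination -hE
      rw [h6, pow_succ _ (k + 1)]
      ring
    obtain ⟨L₁, hL₁, hT₁⟩ := ih y₁ _ (by
      intro j hj
      refine (kerD (D j)).add_mem ((kerD (D j)).sub_mem (hD.ρ j (by omega)) (he j (by omega)))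
        ((kerD (D j)).div_mem (hlk j hj) ?_)
      exact (kerD (D j)).sub_mem ((kerD (D j)).add_mem
        ((kerD (D j)).mul_mem (hD.r j (by omega) _ (by omega)) (kerD (D j)).zero_mem)
        ((kerD (D j)).mul_mem (hD.r j (by omega) _ (by omega)) (kerD (D j)).zero_mem))
        (hD.ρ j (by omega))) h2 h5
    obtain ⟨L₂, hL₂, hT₂⟩ := hS k (by omega) y₂ _ (div_ne_zero (mul_ne_zero (hb0 (k + 1) (by omega))
        (sub_ne_zero.2 (lr_ne hD (k + 1) hk (by omega)))) (mul_ne_zero hr hr')) (by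
      intro j hj
      exact (kerD (D j)).div_mem ((kerD (D j)).mul_mem (hbD _ (by omega) _ (by omega))
        ((kerD (D j)).sub_mem (hlk j hj) ((kerD (D j)).pow_mem (hD.r j (by omega) _ (by omega)) 2)))
        ((kerD (D j)).mul_mem (hD.r j (by omega) _ (by omega)) (hD.r j (by omega) _ (by omega)))) h3
    have := combine h1 hA (mul_ne_zero hr hr') hT₁ hL₁ hT₂ hL₂
    have e2 : (mm 1 k).1 + 1 + (mm 1 k).2 = (mm 1 (k + 1)).1 + 1 := by
      simp only [mm]; omega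
    rw [e2] at this
    exact this

include hδ hδ0 hP hD in
/-- The order at zero. -/
theorem ord_zero : ∃ L : ℂ, L ≠ 0 ∧
    Tendsto (fun i => (F P 5 (δ i)).eval (δ i) / δ i ^ 14) l (𝓝 L) := by
  have hr0 := hP.r0 0 (by omega)
  have hr1 := hP.r0 1 (by omega)
  have hρ := hP.ρ0
  set b : ℕ → ℂ := fun k => (-1) ^ (k + 1) * (P.r (k + 1) / P.r 0) with hb
  have hbD : ∀ k ≤ 5, ∀ j ≤ 5, D j (b k) = 0 := by
    intro k hk j hj
    refine (kerD (D j)).mul_mem ((kerD (D j)).pow_mem ((kerD (D j)).neg_mem (kerD (D j)).one_mem) _)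
      ((kerD (D j)).div_mem (hD.r j hj _ (by omega)) (hD.r j hj _ (by omega)))
  have hrec : ∀ k < 5, b k = -(P.r (k + 1) / P.r (k + 1 + 1)) * b (k + 1) := by
    intro k hk
    have := hP.r0 (k + 1 + 1) (by omega)
    simp only [hb]
    rw [pow_succ _ (k + 1)]
    field_simp
  have hmain := loc_main hδ hδ0 hP hD 1 b hbD hrec hδ (fun j _ => by simp) ?_ ?_
  · have hS : ∀ k ≤ 5, ∀ (z : ι → ℂ) (c : ℂ), c ≠ 0 → (∀ j ≤ k, D j c = 0) →
      Tendsto (fun i => (z i - P.ρ / P.r (k + 1)) / δ i) l (𝓝 c) →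
      ∃ L : ℂ, L ≠ 0 ∧ Tendsto (fun i => (F P k (δ i)).eval (z i) / δ i ^ (mm 1 k).2) l (𝓝 L) :=
      fun k hk => (hmain k hk).2
    have := loc_special hδ hδ0 hP hD b (fun k => rfl) hS 5 le_rfl δ 0 (fun j _ => by simp) ?_ ?_
    · simpa [mm] using this
    · have h1 : b 5 = 1 := by
        simp only [hb]
        rw [show 5 + 1 = 6 from rfl, hP.r6, div_self hr0]
        norm_num
      rw [h1]
      refine tendsto_const_nhds.congr' ?_
      filter_upwards [hδ0] with i hi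
      rw [div_self hi]
    · refine tendsto_const_nhds.congr' ?_
      filter_upwards [hδ0] with i hi
      rw [show 5 + 1 = 6 from rfl, hP.r6]
      norm_num
  · intro z c hc0 hc hcb hz1
    have hz := tendsto_of_div0 hδ hδ0 hz1
    refine ⟨(P.r 0 * 0 + P.r 1 * 0 - P.ρ) * (P.r 0 * c + P.r 1 - P.ρ * 0) - P.l 0 * 0, ?_, ?_⟩
    · intro h
      have h1 : P.ρ * (P.r 0 * c + P.r 1) = 0 := by linear_combination -h
      have h2 := (mul_eq_zero.1 h1).resolve_left hρ
      apply hcb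
      simp only [hb]
      field_simp
      simp only [zero_add]
      linear_combination h2
    · have h1 : Tendsto (fun i => (P.r 0 * δ i + P.r 1 * z i - P.ρ) *
          (P.r 0 * (z i / δ i) + P.r 1 - P.ρ * z i) - P.l 0 * z i) l
          (𝓝 ((P.r 0 * 0 + P.r 1 * 0 - P.ρ) * (P.r 0 * c + P.r 1 - P.ρ * 0) - P.l 0 * 0)) := by
        refine Tendsto.sub (Tendsto.mul ?_ ?_) (tendsto_const_nhds.mul hz)
        · exact ((tendsto_const_nhds.mul hδ).add (tendsto_const_nhds.mul hz)).sub_const _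
        · exact ((tendsto_const_nhds.mul hz1).add_const _).sub (tendsto_const_nhds.mul hz)
      refine h1.congr' ?_
      filter_upwards [hδ0] with i hi
      simp only [E, zero_add, pow_one]
      field_simp
  · intro z c hc0 hc hz1
    have hz := tendsto_of_div hδ hδ0 hz1
    refine ⟨(P.r 0 + P.r 1 * c) * (P.r 0 * (P.ρ / P.r 1) + P.r 1 * 0 - P.ρ * 0 * (P.ρ / P.r 1)) -
      P.l 0 * (P.ρ / P.r 1), ?_, ?_⟩
    · intro h
      have h1 : P.ρ * (P.l 0 - (P.r 0 + P.r 1 * c) * P.r 0) = 0 := by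
        field_simp at h
        linear_combination -h
      have h2 := (mul_eq_zero.1 h1).resolve_left hρ
      refine l_ne hD 0 (by omega) ?_ (sub_eq_zero.1 h2)
      have hr00 : P.r 0 ∈ kerD (D 0) := hD.r 0 (by omega) 0 (by omega)
      have hr01 : P.r 1 ∈ kerD (D 0) := hD.r 0 (by omega) 1 (by omega)
      exact (kerD (D 0)).mul_mem ((kerD (D 0)).add_mem hr00 ((kerD (D 0)).mul_mem hr01 hc)) hr00
    · have h1 : Tendsto (fun i => (P.r 0 + P.r 1 * ((z i - P.ρ / P.r 1) / δ i)) *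
          (P.r 0 * z i + P.r 1 * δ i - P.ρ * δ i * z i) - P.l 0 * z i) l
          (𝓝 ((P.r 0 + P.r 1 * c) * (P.r 0 * (P.ρ / P.r 1) + P.r 1 * 0 - P.ρ * 0 * (P.ρ / P.r 1)) -
            P.l 0 * (P.ρ / P.r 1))) := by
        refine Tendsto.sub (Tendsto.mul ?_ ?_) (tendsto_const_nhds.mul hz)
        · exact tendsto_const_nhds.add (tendsto_const_nhds.mul hz1)
        · exact ((tendsto_const_nhds.mul hz).add (tendsto_const_nhds.mul hδ)).sub
            ((tendsto_const_nhds.mul hδ).mul hz)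
      refine h1.congr' ?_
      filter_upwards [hδ0] with i hi
      simp only [E, zero_add, pow_one]
      field_simp
      ring

include hδ hδ0 hP hD in
/-- The order at `ρ / r 0`. -/
theorem ord_sigma : ∃ L : ℂ, L ≠ 0 ∧
    Tendsto (fun i => (F P 5 (P.ρ / P.r 0 + δ i)).eval (P.ρ / P.r 0 + δ i) / δ i ^ 5) l (𝓝 L) := by
  have hr0 := hP.r0 0 (by omega)
  have hr1 := hP.r0 1 (by omega)
  have hρ := hP.ρ0
  have ha : Tendsto (fun i => P.ρ / P.r 0 + δ i) l (𝓝 (P.ρ / P.r 0)) := by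
    have := hδ.const_add (P.ρ / P.r 0)
    simpa using this
  have hmain := loc_main hδ hδ0 hP hD 0 (fun _ => 0) (fun _ _ _ _ => by simp) (fun _ _ => by simp)
    ha (fun j hj => (kerD (D j)).div_mem (hD.ρ j hj) (hD.r j hj _ (by omega))) ?_ ?_ 5 le_rfl
  · obtain ⟨-, hS⟩ := hmain
    have := hS (fun i => P.ρ / P.r 0 + δ i) 1 one_ne_zero (fun j _ => by simp) ?_
    · simpa [mm] using this
    · refine tendsto_const_nhds.congr' ?_
      filter_upwards [hδ0] with i hi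
      rw [show 5 + 1 = 6 from rfl, hP.r6]
      field_simp
      ring
  · intro z c hc0 hc _ hz1
    have hz := tendsto_of_div0 hδ hδ0 hz1
    refine ⟨(P.r 0 + P.r 1 * c) * (P.r 0 * 0 + P.r 1 * (P.ρ / P.r 0) - P.ρ * (P.ρ / P.r 0) * 0) -
      P.l 0 * (P.ρ / P.r 0) * c, ?_, ?_⟩
    · intro h
      have h1 : P.ρ * c * (P.l 0 - (P.r 0 + P.r 1 * c) * P.r 1 / c) = 0 := by
        field_simp at h
        field_simp
        linear_combination -h
      have h2 := (mul_eq_zero.1 h1).resolve_left (mul_ne_zero hρ hc0)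
      refine l_ne hD 0 (by omega) ?_ (sub_eq_zero.1 h2)
      have hr00 : P.r 0 ∈ kerD (D 0) := hD.r 0 (by omega) 0 (by omega)
      have hr01 : P.r 1 ∈ kerD (D 0) := hD.r 0 (by omega) 1 (by omega)
      exact (kerD (D 0)).div_mem ((kerD (D 0)).mul_mem ((kerD (D 0)).add_mem hr00
        ((kerD (D 0)).mul_mem hr01 hc)) hr01) hc
    · have h1 : Tendsto (fun i => (P.r 0 + P.r 1 * (z i / δ i)) *
          (P.r 0 * z i + P.r 1 * (P.ρ / P.r 0 + δ i) - P.ρ * (P.ρ / P.r 0 + δ i) * z i) -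
          P.l 0 * (P.ρ / P.r 0 + δ i) * (z i / δ i)) l
          (𝓝 ((P.r 0 + P.r 1 * c) * (P.r 0 * 0 + P.r 1 * (P.ρ / P.r 0) -
            P.ρ * (P.ρ / P.r 0) * 0) - P.l 0 * (P.ρ / P.r 0) * c)) := by
        refine Tendsto.sub (Tendsto.mul ?_ ?_) ((tendsto_const_nhds.mul ha).mul hz1)
        · exact tendsto_const_nhds.add (tendsto_const_nhds.mul hz1)
        · exact ((tendsto_const_nhds.mul hz).add (tendsto_const_nhds.mul ha)).sub
            ((tendsto_const_nhds.mul ha).mul hz)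
      refine h1.congr' ?_
      filter_upwards [hδ0] with i hi
      simp only [E, zero_add, pow_one]
      field_simp
      ring
  · intro z c hc0 hc hz1
    have hz := tendsto_of_div hδ hδ0 hz1
    refine ⟨E P 0 (P.ρ / P.r 0) (P.ρ / P.r 1), ?_, ?_⟩
    · intro h
      unfold E at h
      simp only [zero_add] at h
      have h1 : P.ρ ^ 2 * (P.l 0 - (P.r 0 ^ 2 + P.r 1 ^ 2 - P.ρ ^ 2)) = 0 := by
        field_simp at h
        linear_combination -h
      have h2 := (mul_eq_zero.1 h1).resolve_left (pow_ne_zero _ hρ)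
      refine l_ne hD 0 (by omega) ?_ (sub_eq_zero.1 h2)
      have hr00 : P.r 0 ∈ kerD (D 0) := hD.r 0 (by omega) 0 (by omega)
      have hr01 : P.r 1 ∈ kerD (D 0) := hD.r 0 (by omega) 1 (by omega)
      have hρ0 : P.ρ ∈ kerD (D 0) := hD.ρ 0 (by omega)
      exact (kerD (D 0)).sub_mem ((kerD (D 0)).add_mem ((kerD (D 0)).pow_mem hr00 2)
        ((kerD (D 0)).pow_mem hr01 2)) ((kerD (D 0)).pow_mem hρ0 2)
    · have hcont : Continuous fun w : ℂ × ℂ => E P 0 w.1 w.2 := by unfold E; fun_prop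
      have := (hcont.tendsto (P.ρ / P.r 0, P.ρ / P.r 1)).comp (ha.prodMk_nhds hz)
      refine this.congr fun i => ?_
      simp

end main

end Pool.Agent.L7h85.Rig
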