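import Pool.Agent.L7h85.Rig.Fin

set_option autoImplicit false

/-! # Real and complex realisations -/

open Polynomial Topology Filter

namespace Pool.Agent.L7h85.Rig

lemma el_iff (p : Fin 8 → Fin 2 → ℝ) (d : Fin 8 → Fin 8 → ℂ) :
    (∀ e ∈ Lst, d e.1 e.2 = ((sd p e.1 e.2 : ℝ) : ℂ)) ↔ EL (par p).cx d := by
  have hρ : (par p).cx.ρ ^ 2 = ((sd p 0 1 : ℝ) : ℂ) := sqrt_sd_sq p 0 1
  have h0 : (par p).cx.r 0 ^ 2 = ((sd p 0 2 : ℝ) : ℂ) := sqrt_sd_sq p 0 2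
  have h1 : (par p).cx.r 1 ^ 2 = ((sd p 1 3 : ℝ) : ℂ) := sqrt_sd_sq p 1 3
  have h2 : (par p).cx.r 2 ^ 2 = ((sd p 0 4 : ℝ) : ℂ) := sqrt_sd_sq p 0 4
  have h3 : (par p).cx.r 3 ^ 2 = ((sd p 1 5 : ℝ) : ℂ) := sqrt_sd_sq p 1 5
  have h4 : (par p).cx.r 4 ^ 2 = ((sd p 0 6 : ℝ) : ℂ) := sqrt_sd_sq p 0 6
  have h5 : (par p).cx.r 5 ^ 2 = ((sd p 1 7 : ℝ) : ℂ) := sqrt_sd_sq p 1 7
  rw [forall_Lst, EL, hρ, h0, h1, h2, h3, h4, h5]
  exact Iff.rfl

lemma cx_ρ (P : Par ℝ) : P.cx.ρ = ((P.ρ : ℝ) : ℂ) := rfl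

lemma cx_r (P : Par ℝ) (k : ℕ) : P.cx.r k = ((P.r k : ℝ) : ℂ) := rfl

lemma Dt_12 (P : Par ℂ) (t : ℕ → ℂ) : Dt P t 1 2 =
    (P.ρ - P.r 0 * t 0) * (P.ρ - P.r 0 * (t 0)⁻¹) := rfl

/-- A real point configuration cannot realise a chain off the unit circle. -/
lemma no_real {q' : Fin 8 → Fin 2 → ℝ} {R r a : ℝ} (hR : 0 < R) (hr : 0 < r) (ha1 : -1 < a)
    (ha2 : a < 1) (ha0 : a ≠ 0) (e1 : sd q' 0 1 = R ^ 2) (e2 : sd q' 0 2 = r ^ 2)
    (e3 : sd q' 1 2 = (R - r * a) * (R - r * a⁻¹)) : False := by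
  set x := q' 1 0 - q' 0 0 with hx
  set y := q' 1 1 - q' 0 1 with hy
  set u := q' 2 0 - q' 0 0 with hu
  set v := q' 2 1 - q' 0 1 with hv
  have g1 : x ^ 2 + y ^ 2 = R ^ 2 := by rw [← e1, sd, hx, hy]; ring
  have g2 : u ^ 2 + v ^ 2 = r ^ 2 := by rw [← e2, sd, hu, hv]; ring
  have g3 : (x - u) ^ 2 + (y - v) ^ 2 = (R - r * a) * (R - r * a⁻¹) := by
    rw [← e3, sd, hx, hy, hu, hv]; ring
  have g4 : 2 * (x * u + y * v) = R * r * (a + a⁻¹) := by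
    have h5 : (R - r * a) * (R - r * a⁻¹) = R ^ 2 + r ^ 2 - R * r * (a + a⁻¹) := by
      field_simp
      ring
    rw [h5] at g3
    linear_combination g1 + g2 - g3
  have g5 : (R * r * (a + a⁻¹)) ^ 2 ≤ 4 * (R ^ 2 * r ^ 2) := by
    rw [← g4, ← g1, ← g2]
    nlinarith [sq_nonneg (x * v - y * u)]
  have g6 : (R * r) ^ 2 * (a - a⁻¹) ^ 2 ≤ 0 := by
    have h6 : (a + a⁻¹) ^ 2 = (a - a⁻¹) ^ 2 + 4 := by field_simp; ring
    have h7 : (R * r * (a + a⁻¹)) ^ 2 = (R * r) ^ 2 * (a - a⁻¹) ^ 2 + 4 * (R ^ 2 * r ^ 2) := by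
      rw [mul_pow, h6]; ring
    linarith
  have g7 : 0 < (R * r) ^ 2 := by positivity
  have g8 : (a - a⁻¹) ^ 2 = 0 := by
    have h8 := sq_nonneg (a - a⁻¹)
    have h9 : (a - a⁻¹) ^ 2 ≤ 0 := by
      by_contra hcon
      push Not at hcon
      have := mul_pos g7 hcon
      linarith
    linarith
  have g9 : a - a⁻¹ = 0 := by simpa using g8
  have g10 : a ^ 2 = 1 := by
    have h10 : a * (a - a⁻¹) = 0 := by rw [g9, mul_zero]
    have h11 : a * (a - a⁻¹) = a ^ 2 - 1 := by field_simp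
    linarith
  nlinarith

/-- There is a complex realisation which is not real. -/
lemma exists_nonreal {p : Fin 8 → Fin 2 → ℝ}
    (hp : AlgebraicIndependent ℚ (fun x : Fin 8 × Fin 2 => p x.1 x.2)) :
    ∃ q : Fin 8 → Fin 2 → ℂ, EL (par p).cx (sdc q) ∧
      ¬ ∃ q' : Fin 8 → Fin 2 → ℝ, ∀ i j, sdc q i j = ((sd q' i j : ℝ) : ℂ) := by
  have hP := par_ND hp
  obtain ⟨D, hD⟩ := exists_Gn hp
  have hρ : 0 < (par p).ρ :=
    Real.sqrt_pos.2 (lt_of_le_of_ne (sd_nonneg _ _ _) (Ne.symm (gen_sd hp (by decide))))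
  have hr : 0 < (par p).r 0 :=
    Real.sqrt_pos.2 (lt_of_le_of_ne (sd_nonneg _ _ _) (Ne.symm (gen_sd hp (by decide))))
  obtain ⟨a, ha1, ha2, ha0, hb1, hb2, hroot⟩ := exists_root (par p) hP hD hρ hr
  have ha0c : (a : ℂ) ≠ 0 := by exact_mod_cast ha0
  have hb1c : (par p).cx.r 0 * (a : ℂ) ≠ (par p).cx.ρ := by
    intro h
    apply hb1
    have : (((par p).r 0 * a : ℝ) : ℂ) = (((par p).ρ : ℝ) : ℂ) := by
      rw [cx_r, cx_ρ] at h
      push_cast; exact h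
    exact_mod_cast this
  have hb2c : (par p).cx.ρ * (a : ℂ) ≠ (par p).cx.r 0 := by
    intro h
    apply hb2
    have : (((par p).ρ * a : ℝ) : ℂ) = (((par p).r 0 : ℝ) : ℂ) := by
      rw [cx_r, cx_ρ] at h
      push_cast; exact h
    exact_mod_cast this
  obtain ⟨-, t, t0, t6, tE, tne⟩ := exists_closed (K := kerD (D 5)) (fun x => kerD_sq) hP
    (hD.ρ 5 le_rfl) (fun j hj => hD.r 5 le_rfl j hj) (fun j hj => by
      have := hD.l 5 le_rfl j (by omega)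
      rw [if_neg (by omega)] at this
      exact this) (fun h => by
      have h2 := hD.l 5 le_rfl 5 le_rfl
      rw [if_pos rfl] at h2
      rw [mem_kerD, h2] at h
      exact one_ne_zero h) ha0c hb1c hb2c (by rw [RR_cx, hroot]; simp)
  obtain ⟨q, hq⟩ := exists_q (par p).cx t
  have hEL : EL (par p).cx (Dt (par p).cx t) := Dt_EL hP tne (by rw [t6, t0]) tE
  refine ⟨q, by rw [hq]; exact hEL, ?_⟩
  rintro ⟨q', hq'⟩
  rw [hq] at hq'
  obtain ⟨e0, f0, -⟩ := hEL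
  have e1 : sd q' 0 1 = (par p).ρ ^ 2 := by
    have : ((sd q' 0 1 : ℝ) : ℂ) = (((par p).ρ ^ 2 : ℝ) : ℂ) := by
      rw [← hq', e0, cx_ρ]; push_cast; ring
    exact_mod_cast this
  have e2 : sd q' 0 2 = (par p).r 0 ^ 2 := by
    have : ((sd q' 0 2 : ℝ) : ℂ) = (((par p).r 0 ^ 2 : ℝ) : ℂ) := by
      rw [← hq', f0, cx_r]; push_cast; ring
    exact_mod_cast this
  have e3 : sd q' 1 2 = ((par p).ρ - (par p).r 0 * a) * ((par p).ρ - (par p).r 0 * a⁻¹) := by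
    have : ((sd q' 1 2 : ℝ) : ℂ) =
        ((((par p).ρ - (par p).r 0 * a) * ((par p).ρ - (par p).r 0 * a⁻¹) : ℝ) : ℂ) := by
      rw [← hq', Dt_12, t0]
      push_cast
      rw [cx_ρ, cx_r]
    exact_mod_cast this
  exact no_real hρ hr ha1 ha2 ha0 e1 e2 e3

/-- The main theorem. -/
theorem main (p : Fin 8 → Fin 2 → ℝ)
    (hp : AlgebraicIndependent ℚ (fun x : Fin 8 × Fin 2 => p x.1 x.2)) :
    {D : Fin 8 → Fin 8 → ℝ | ∃ q : Fin 8 → Fin 2 → ℝ,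
          (∀ i j, Gr.Adj i j → ∑ k, (q i k - q j k) ^ 2 = ∑ k, (p i k - p j k) ^ 2) ∧
          D = fun i j => ∑ k, (q i k - q j k) ^ 2}.ncard ≠
      {D : Fin 8 → Fin 8 → ℂ | ∃ q : Fin 8 → Fin 2 → ℂ,
          (∀ i j, Gr.Adj i j →
            ∑ k, (q i k - q j k) ^ 2 = ∑ k, ((p i k : ℂ) - (p j k : ℂ)) ^ 2) ∧
          D = fun i j => ∑ k, (q i k - q j k) ^ 2}.ncard := by
  have hP := par_ND hp
  obtain ⟨Dv, hDv⟩ := exists_Gn hp
  have sd_sum : ∀ (q : Fin 8 → Fin 2 → ℝ) (i j : Fin 8), ∑ k, (q i k - q j k) ^ 2 = sd q i j := by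
    intro q i j
    rw [Fin.sum_univ_two, sd]
  have sd_sum' : ∀ (i j : Fin 8), ∑ k, ((p i k : ℂ) - (p j k : ℂ)) ^ 2 = ((sd p i j : ℝ) : ℂ) := by
    intro i j
    rw [Fin.sum_univ_two, sd]
    push_cast
    rfl
  simp only [sd_sum, sd_sum']
  set SR : Set (Fin 8 → Fin 8 → ℝ) := {D | ∃ q : Fin 8 → Fin 2 → ℝ,
          (∀ i j, Gr.Adj i j → sd q i j = sd p i j) ∧ D = fun i j => sd q i j} with hSR
  set SC : Set (Fin 8 → Fin 8 → ℂ) := {D | ∃ q : Fin 8 → Fin 2 → ℂ,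
          (∀ i j, Gr.Adj i j → ∑ k, (q i k - q j k) ^ 2 = ((sd p i j : ℝ) : ℂ)) ∧
          D = fun i j => ∑ k, (q i k - q j k) ^ 2} with hSC
  have hiff : ∀ q : Fin 8 → Fin 2 → ℂ,
      (∀ i j, Gr.Adj i j → ∑ k, (q i k - q j k) ^ 2 = ((sd p i j : ℝ) : ℂ)) ↔
      EL (par p).cx (sdc q) := by
    intro q
    rw [← el_iff]
    refine forall_adj_iff (d := sdc q) (d' := fun i j => ((sd p i j : ℝ) : ℂ)) ?_ ?_
    · intro i j
      simp only [sdc]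
      exact Finset.sum_congr rfl fun k _ => by ring
    · intro i j
      simp only [sd]
      congr 1
      ring
  have hR : Rp (par p).cx 5 ≠ 0 := by
    intro h0
    have h1 : (Rp (par p).cx 5).eval ((1 : ℝ) : ℂ) = 0 := by rw [h0]; simp
    rw [Rp_eval, RR_cx] at h1
    have h2 := RR_pos (par p) hP hDv (e := 1) (by norm_num)
    have h3 : RR (par p) 1 = 0 := by exact_mod_cast h1
    linarith
  have hfin : SC.Finite := by
    refine (finite_real hP hR).subset ?_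
    rintro D ⟨q, hq, rfl⟩
    exact ⟨q, (hiff q).1 hq, rfl⟩
  set φ : (Fin 8 → Fin 8 → ℝ) → (Fin 8 → Fin 8 → ℂ) := fun D i j => ((D i j : ℝ) : ℂ) with hφ
  have hφi : Function.Injective φ := by
    intro D D' h
    ext i j
    have := congrFun (congrFun h i) j
    simp only [hφ] at this
    exact_mod_cast this
  have hsub : φ '' SR ⊆ SC := by
    rintro _ ⟨D, ⟨q, hq, rfl⟩, rfl⟩
    refine ⟨fun i k => ((q i k : ℝ) : ℂ), ?_, ?_⟩
    · intro i j hij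
      rw [← hq i j hij, Fin.sum_univ_two, sd]
      push_cast
      rfl
    · ext i j
      simp only [hφ]
      rw [Fin.sum_univ_two, sd]
      push_cast
      rfl
  obtain ⟨q, hq1, hq2⟩ := exists_nonreal hp
  have hmem : sdc q ∈ SC := ⟨q, (hiff q).2 hq1, rfl⟩
  have hnot : sdc q ∉ φ '' SR := by
    rintro ⟨D, ⟨q', -, rfl⟩, h⟩
    apply hq2
    refine ⟨q', fun i j => ?_⟩
    rw [← h]
  have hlt : (φ '' SR).ncard < SC.ncard :=
    Set.ncard_lt_ncard ⟨hsub, fun h => hnot (h hmem)⟩ hfin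
  rw [Set.ncard_image_of_injective _ hφi] at hlt
  exact hlt.ne

end Pool.Agent.L7h85.Rig
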